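import Pool.Agent.J4H78.GP.Stm2

/-!
# Project GP2 (MP_d0fd9b_nt), CNT2: the number of primes with a large character sum
-/

set_option autoImplicit false

open Filter Topology

namespace Pool.Agent.J4H57.GP

open Pool.Agent.J4H78.GP

/-- the choice of the exponent -/
theorem num2 {x y : ℕ} {A δ : ℝ} (hδ : 0 < δ) (hA : 800 ≤ A) (hL : Real.exp 1 ≤ Real.log x)
    (hL2 : (2 / δ) ^ 2 ≤ Real.log x) (hy : (δ / 2 * Real.log x) ^ A ≤ y) (hyx : (y : ℝ) ≤ x) :
    0 < Real.log y ∧ ∃ k : ℕ, 25 * Real.log x ≤ k * Real.log y ∧ k * Real.log y ≤ 26 * Real.log x ∧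
      (k : ℝ) ^ k ≤ (x : ℝ) ^ (50 / A) * Real.log x := by
  set L := Real.log x with hLdef
  have he : (2 : ℝ) ≤ Real.exp 1 := by
    have := Real.add_one_le_exp (1 : ℝ)
    linarith
  have hL0 : 0 < L := by linarith
  have hx0 : 0 < (x : ℝ) := by
    rcases Nat.eq_zero_or_pos x with h | h
    · rw [hLdef, h] at hL0
      simp at hL0
    · exact_mod_cast h
  set l := Real.log L with hldef
  have hle : Real.exp l = L := Real.exp_log hL0
  have hl1 : 1 ≤ l := by
    rw [hldef, Real.le_log_iff_exp_le hL0]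
    exact hL
  have hA0 : 0 < A := by linarith
  have hdL : 0 < δ / 2 * L := by positivity
  have hy0 : (0 : ℝ) < y := lt_of_lt_of_le (Real.rpow_pos_of_pos hdL A) hy
  have h1 : l / 2 ≤ Real.log (δ / 2 * L) := by
    have h2 : Real.log ((2 / δ) ^ 2) ≤ l := Real.log_le_log (by positivity) hL2
    rw [Real.log_pow] at h2
    rw [Real.log_mul (by positivity) hL0.ne']
    have h3 : Real.log (δ / 2) = - Real.log (2 / δ) := by
      rw [← Real.log_inv, inv_div]
    rw [h3]
    push_cast at h2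
    linarith
  have h2 : A * (l / 2) ≤ Real.log y := by
    calc A * (l / 2) ≤ A * Real.log (δ / 2 * L) := mul_le_mul_of_nonneg_left h1 hA0.le
      _ = Real.log ((δ / 2 * L) ^ A) := (Real.log_rpow hdL A).symm
      _ ≤ Real.log y := Real.log_le_log (Real.rpow_pos_of_pos hdL A) hy
  have hAl : 0 < A * (l / 2) := by positivity
  have hly : 0 < Real.log y := by linarith
  have hlyL : Real.log y ≤ L := Real.log_le_log hy0 hyx
  refine ⟨hly, ⌈25 * L / Real.log y⌉₊, ?_, ?_, ?_⟩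
  · have h3 : 25 * L / Real.log y ≤ ⌈25 * L / Real.log y⌉₊ := Nat.le_ceil _
    rwa [div_le_iff₀ hly] at h3
  · have h3 : (⌈25 * L / Real.log y⌉₊ : ℝ) < 25 * L / Real.log y + 1 :=
      Nat.ceil_lt_add_one (by positivity)
    have h4 : (⌈25 * L / Real.log y⌉₊ : ℝ) * Real.log y ≤ (25 * L / Real.log y + 1) * Real.log y :=
      mul_le_mul_of_nonneg_right h3.le hly.le
    rw [add_mul, div_mul_cancel₀ _ hly.ne', one_mul] at h4
    linarith
  · set k := ⌈25 * L / Real.log y⌉₊ with hk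
    have h3 : (k : ℝ) < 25 * L / Real.log y + 1 := Nat.ceil_lt_add_one (by positivity)
    have h4 : 25 * L / Real.log y ≤ 25 * L / (A * (l / 2)) := by gcongr
    have h5 : 25 * L / (A * (l / 2)) = 50 * L / A / l := by
      field_simp
      ring
    have h6 : (k : ℝ) * l ≤ 50 / A * L + l := by
      calc (k : ℝ) * l ≤ (50 * L / A / l + 1) * l := by
            refine mul_le_mul_of_nonneg_right ?_ (by linarith)
            linarith
        _ = 50 / A * L + l := by
            field_simp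
    have h7 : (k : ℝ) ≤ L := by
      have h8 : 50 * L / A / l ≤ L / 2 := by
        rw [div_div, div_le_iff₀ (by positivity)]
        have h9 : 800 ≤ A * l := by nlinarith
        nlinarith
      linarith
    rcases Nat.eq_zero_or_pos k with h0 | h0
    · rw [h0]
      simp only [pow_zero]
      have h8 : 1 ≤ (x : ℝ) ^ (50 / A) := by
        refine Real.one_le_rpow ?_ (by positivity)
        have : Real.log 1 ≤ Real.log x := by rw [Real.log_one]; exact hL0.le
        exact (Real.log_le_log_iff one_pos hx0).mp this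
      nlinarith
    · have hk0 : (0 : ℝ) < k := by exact_mod_cast h0
      have h8 : Real.log k ≤ l := Real.log_le_log hk0 h7
      calc (k : ℝ) ^ k = Real.exp (k * Real.log k) := by
            rw [← Real.rpow_natCast, Real.rpow_def_of_pos hk0, mul_comm]
        _ ≤ Real.exp (50 / A * L + l) := by
            apply Real.exp_le_exp.2
            exact (mul_le_mul_of_nonneg_left h8 hk0.le).trans h6
        _ = (x : ℝ) ^ (50 / A) * L := by
            rw [Real.exp_add, Real.rpow_def_of_pos hx0, hle, mul_comm (Real.log x)]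

/-- the bound for one `y` -/
theorem one_y {ε η Cb : ℝ} (hε : 0 < ε) (hη : 0 < η) (hη2 : η ≤ 1 / 2) (hCb : 0 < Cb)
    (hbas : ∀ (x k : ℕ) (X B T : ℝ) (Q E : Finset ℕ),
      1 ≤ X → 0 ≤ T → (∀ q ∈ Q, q.Prime ∧ (q : ℝ) ≤ B) → B ^ k ≤ X →
      (∀ p ∈ E, p.Prime ∧ p ≤ x ∧ Big p Q T) →
        (E.card : ℝ) * T ^ (2 * k) ≤
          Cb * (X ^ (1 + ε) + E.card * (x : ℝ) ^ 24 / X) * (k.factorial * (Q.card : ℝ) ^ k))
    {x y k : ℕ} {K : ℝ} (hx : 1 ≤ x) (hly : 0 < Real.log y) (h1 : 25 * Real.log x ≤ k * Real.log y)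
    (h2 : k * Real.log y ≤ 26 * Real.log x) (h3 : (k : ℝ) ^ k ≤ K) (h4 : 2 * Cb * K ≤ x)
    (P : Set ℕ) (E : Finset ℕ) (hE : ∀ p ∈ E, p.Prime ∧ p ≤ x ∧ Big p (PS P y) ((y : ℝ) ^ (1 - η))) :
    (E.card : ℝ) ≤ 2 * Cb * K * (x : ℝ) ^ (26 * (ε + 2 * η)) := by
  classical
  have hx0 : (0 : ℝ) < x := by exact_mod_cast hx
  have hxL : 0 ≤ Real.log x := Real.log_nonneg (by exact_mod_cast hx)
  have hy0 : (0 : ℝ) < y := by
    rcases Nat.eq_zero_or_pos y with h | h
    · rw [h] at hly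
      simp at hly
    · exact_mod_cast h
  set Z : ℝ := k * Real.log y with hZ
  have hZ0 : 0 ≤ Z := by positivity
  have hX : (y : ℝ) ^ k = Real.exp Z := by
    rw [hZ, ← Real.exp_log hy0, ← Real.exp_nat_mul, Real.exp_log hy0]
  have hxe : ∀ r : ℝ, (x : ℝ) ^ r = Real.exp (r * Real.log x) := by
    intro r
    rw [Real.rpow_def_of_pos hx0, mul_comm]
  have hT : ((y : ℝ) ^ (1 - η)) ^ (2 * k) = Real.exp (2 * (1 - η) * Z) := by
    rw [Real.rpow_def_of_pos hy0, ← Real.exp_nat_mul]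
    congr 1
    rw [hZ]
    push_cast
    ring
  have hq : ((PS P y).card : ℝ) ≤ y := by
    have h5 : (PS P y).card ≤ y := by
      unfold PS
      refine (Finset.card_filter_le _ _).trans ?_
      simp
    exact_mod_cast h5
  have hk0 : (0 : ℝ) ≤ (k : ℝ) ^ k := by positivity
  have hK0 : 0 ≤ K := hk0.trans h3
  have h5 : (k.factorial : ℝ) * ((PS P y).card : ℝ) ^ k ≤ K * Real.exp Z := by
    have h6 : (k.factorial : ℝ) ≤ (k : ℝ) ^ k := by exact_mod_cast Nat.factorial_le_pow k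
    calc (k.factorial : ℝ) * ((PS P y).card : ℝ) ^ k ≤ K * (y : ℝ) ^ k := by
          apply mul_le_mul (h6.trans h3) _ (by positivity) hK0
          exact pow_le_pow_left₀ (Nat.cast_nonneg _) hq k
      _ = _ := by rw [hX]
  have h6 := hbas x k (Real.exp Z) y ((y : ℝ) ^ (1 - η)) (PS P y) E (Real.one_le_exp hZ0)
    (Real.rpow_nonneg hy0.le _) (by
      intro q hq
      unfold PS at hq
      rw [Finset.mem_filter, Finset.mem_Icc] at hq
      exact ⟨hq.2.1, by exact_mod_cast hq.1.2⟩) hX.le hE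
  rw [hT, ← Real.exp_mul] at h6
  set n : ℝ := (E.card : ℝ) with hn
  have hn0 : 0 ≤ n := Nat.cast_nonneg _
  have hx24 : (x : ℝ) ^ 24 = Real.exp (24 * Real.log x) := by
    rw [← hxe 24]
    exact_mod_cast (Real.rpow_natCast (x : ℝ) 24).symm
  rw [hx24] at h6
  have h7 : n * Real.exp (2 * (1 - η) * Z) ≤
      Cb * (Real.exp (Z * (1 + ε)) + n * Real.exp (24 * Real.log x) / Real.exp Z) *
        (K * Real.exp Z) := by
    refine h6.trans (mul_le_mul_of_nonneg_left h5 (by positivity))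
  -- divide
  have h8 : n ≤ Cb * K * Real.exp ((ε + 2 * η) * Z) +
      Cb * K * n * Real.exp (24 * Real.log x - 2 * (1 - η) * Z) := by
    have h9 : (Cb * K * Real.exp ((ε + 2 * η) * Z) +
        Cb * K * n * Real.exp (24 * Real.log x - 2 * (1 - η) * Z)) * Real.exp (2 * (1 - η) * Z) =
        Cb * (Real.exp (Z * (1 + ε)) + n * Real.exp (24 * Real.log x) / Real.exp Z) *
        (K * Real.exp Z) := by
      have e1 : Real.exp ((ε + 2 * η) * Z) * Real.exp (2 * (1 - η) * Z) =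
          Real.exp (Z * (1 + ε)) * Real.exp Z := by
        rw [← Real.exp_add, ← Real.exp_add]
        congr 1
        ring
      have e2 : Real.exp (24 * Real.log x - 2 * (1 - η) * Z) * Real.exp (2 * (1 - η) * Z) =
          Real.exp (24 * Real.log x) := by
        rw [← Real.exp_add]
        congr 1
        ring
      have e3 : Real.exp (24 * Real.log x) / Real.exp Z * Real.exp Z = Real.exp (24 * Real.log x) :=
        div_mul_cancel₀ _ (Real.exp_pos Z).ne'
      calc _ = Cb * K * (Real.exp ((ε + 2 * η) * Z) * Real.exp (2 * (1 - η) * Z)) +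
            Cb * K * n * (Real.exp (24 * Real.log x - 2 * (1 - η) * Z) *
              Real.exp (2 * (1 - η) * Z)) := by ring
        _ = Cb * K * (Real.exp (Z * (1 + ε)) * Real.exp Z) +
            Cb * K * n * (Real.exp (24 * Real.log x) / Real.exp Z * Real.exp Z) := by
            rw [e1, e2, e3]
        _ = _ := by ring
    rw [← h9] at h7
    exact le_of_mul_le_mul_right h7 (Real.exp_pos _)
  have h9 : Real.exp (24 * Real.log x - 2 * (1 - η) * Z) ≤ (x : ℝ)⁻¹ := by
    have e1 : (x : ℝ)⁻¹ = Real.exp (- Real.log x) := by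
      rw [Real.exp_neg, Real.exp_log hx0]
    rw [e1]
    apply Real.exp_le_exp.2
    nlinarith
  have h10 : Cb * K * n * Real.exp (24 * Real.log x - 2 * (1 - η) * Z) ≤ n / 2 := by
    calc Cb * K * n * Real.exp (24 * Real.log x - 2 * (1 - η) * Z) ≤ Cb * K * n * (x : ℝ)⁻¹ := by
          gcongr
      _ = n * (2 * Cb * K / x) / 2 := by ring
      _ ≤ n * 1 / 2 := by
          gcongr
          rw [div_le_one hx0]
          exact h4
      _ = n / 2 := by ring
  have h11 : Real.exp ((ε + 2 * η) * Z) ≤ (x : ℝ) ^ (26 * (ε + 2 * η)) := by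
    rw [hxe]
    apply Real.exp_le_exp.2
    have : (ε + 2 * η) * Z ≤ (ε + 2 * η) * (26 * Real.log x) :=
      mul_le_mul_of_nonneg_left h2 (by positivity)
    linarith
  have h12 : Cb * K * Real.exp ((ε + 2 * η) * Z) ≤ Cb * K * (x : ℝ) ^ (26 * (ε + 2 * η)) :=
    mul_le_mul_of_nonneg_left h11 (by positivity)
  linarith

theorem cnt2_main (hB : S_BAS2) (δ : ℝ) (hδ : 0 < δ) (hδ1 : δ ≤ 1) : ∃ C : ℝ, 0 < C ∧
    ∀ (P : Set ℕ) (x : ℕ), 1 ≤ x → ∀ E : Finset ℕ,
      (∀ p ∈ E, p.Prime ∧ p ≤ x ∧ Bad P (800 / δ) (δ / 1000) (δ / 4) p) →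
        (E.card : ℝ) ≤ C * (x : ℝ) ^ δ := by
  obtain ⟨Cb, hCb, hbas⟩ := hB (δ / 1000) (by positivity)
  set A : ℝ := 800 / δ with hAdef
  have hA : 800 ≤ A := by
    rw [hAdef, le_div_iff₀ hδ]
    nlinarith
  have hA0 : 0 < A := by linarith
  have hAδ : 50 / A = δ / 16 := by
    rw [hAdef]
    field_simp
    ring
  have hlog : Tendsto (fun x : ℕ => Real.log (x : ℝ)) atTop atTop :=
    Real.tendsto_log_atTop.comp tendsto_natCast_atTop_atTop
  have ev : ∀ᶠ x : ℕ in atTop, Real.exp 1 ≤ Real.log x ∧ (2 / δ) ^ 2 ≤ Real.log x ∧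
      Real.log x ≤ (x : ℝ) ^ (δ / 2) ∧ 2 * Cb * Real.log x ≤ (x : ℝ) ^ (1 / 2 : ℝ) := by
    refine (hlog.eventually_ge_atTop _).and ((hlog.eventually_ge_atTop _).and (?_ : _))
    have h1 := (isLittleO_log_rpow_atTop (show 0 < δ / 2 by positivity)).bound one_pos
    have h2 := (isLittleO_log_rpow_atTop
      (show (0 : ℝ) < 1 / 2 by norm_num)).bound (show 0 < 1 / (2 * Cb) by positivity)
    have h1' := tendsto_natCast_atTop_atTop (R := ℝ) |>.eventually h1
    have h2' := tendsto_natCast_atTop_atTop (R := ℝ) |>.eventually h2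
    filter_upwards [h1', h2', hlog.eventually_ge_atTop 0] with x h3 h4 h5
    rw [one_mul, Real.norm_of_nonneg h5, Real.norm_of_nonneg (by positivity)] at h3
    rw [Real.norm_of_nonneg h5, Real.norm_of_nonneg (by positivity)] at h4
    refine ⟨h3, ?_⟩
    calc 2 * Cb * Real.log x ≤ 2 * Cb * (1 / (2 * Cb) * (x : ℝ) ^ (1 / 2 : ℝ)) := by gcongr
      _ = (x : ℝ) ^ (1 / 2 : ℝ) := by
          field_simp
  obtain ⟨x₁, hx₁⟩ := eventually_atTop.1 ev
  refine ⟨2 * Cb + 1 + (x₁ + 1), by positivity, fun P x hx E hE => ?_⟩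
  have hx0 : (0 : ℝ) < x := by exact_mod_cast hx
  have hx1 : (1 : ℝ) ≤ x := by exact_mod_cast hx
  have hxδ : 1 ≤ (x : ℝ) ^ δ := Real.one_le_rpow hx1 hδ.le
  rcases lt_or_ge x x₁ with hlt | hge
  · -- small `x`
    have h1 : E.card ≤ x + 1 := by
      have : E ⊆ Finset.range (x + 1) := fun p hp => by
        rw [Finset.mem_range]
        have := (hE p hp).2.1
        omega
      simpa using Finset.card_le_card this
    have h2 : (E.card : ℝ) ≤ x₁ + 1 := by
      have : E.card ≤ x₁ + 1 := by omega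
      exact_mod_cast this
    calc (E.card : ℝ) ≤ (x₁ + 1) := h2
      _ ≤ (2 * Cb + 1 + (x₁ + 1)) * 1 := by linarith
      _ ≤ _ := by gcongr
  · obtain ⟨hL, hL2, hLδ, hLx⟩ := hx₁ x hge
    set L := Real.log x with hLdef
    have hL0 : 0 < L := lt_of_lt_of_le (Real.exp_pos 1) hL
    classical
    set F : ℕ → Finset ℕ := fun y => E.filter (fun p => (x : ℝ) ^ (δ / 2) < p ∧
      (Real.log p) ^ A ≤ y ∧ (y : ℝ) ≤ (p : ℝ) ^ (δ / 4) ∧
        Big p (PS P y) ((y : ℝ) ^ (1 - δ / 1000))) with hF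
    set Y : Finset ℕ := Finset.Icc 1 ⌊(x : ℝ) ^ (δ / 4)⌋₊ with hY
    have hsub : E ⊆ Finset.Icc 1 ⌊(x : ℝ) ^ (δ / 2)⌋₊ ∪ Y.biUnion F := by
      intro p hp
      obtain ⟨hp1, hp2, y, hy1, hy2, hy3⟩ := hE p hp
      rw [Finset.mem_union]
      by_cases h1 : (p : ℝ) ≤ (x : ℝ) ^ (δ / 2)
      · left
        rw [Finset.mem_Icc]
        exact ⟨hp1.one_lt.le, Nat.le_floor h1⟩
      · right
        push Not at h1
        have hpx : (p : ℝ) ^ (δ / 4) ≤ (x : ℝ) ^ (δ / 4) :=
          Real.rpow_le_rpow (Nat.cast_nonneg _) (by exact_mod_cast hp2) (by positivity)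
        have hlp : 0 < Real.log p := Real.log_pos (by exact_mod_cast hp1.one_lt)
        have hy0 : (0 : ℝ) < y := lt_of_lt_of_le (Real.rpow_pos_of_pos hlp A) hy1
        rw [Finset.mem_biUnion]
        refine ⟨y, ?_, ?_⟩
        · rw [hY, Finset.mem_Icc]
          exact ⟨by exact_mod_cast hy0, Nat.le_floor (hy2.trans hpx)⟩
        · rw [hF, Finset.mem_filter]
          exact ⟨hp, h1, hy1, hy2, hy3⟩
    have hone : ∀ y ∈ Y, ((F y).card : ℝ) ≤
        2 * Cb * ((x : ℝ) ^ (50 / A) * L) * (x : ℝ) ^ (26 * (δ / 1000 + 2 * (δ / 1000))) := by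
      intro y hy
      rcases (F y).eq_empty_or_nonempty with h0 | ⟨p, hp⟩
      · rw [h0, Finset.card_empty, Nat.cast_zero]
        positivity
      · rw [hF, Finset.mem_filter] at hp
        obtain ⟨hpE, hp1, hp2, hp3, -⟩ := hp
        have hp0 := (hE p hpE).1
        have hlp : δ / 2 * L ≤ Real.log p := by
          have h1 : Real.log ((x : ℝ) ^ (δ / 2)) ≤ Real.log p :=
            Real.log_le_log (by positivity) hp1.le
          rwa [Real.log_rpow hx0] at h1
        have hy1 : (δ / 2 * L) ^ A ≤ y :=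
          (Real.rpow_le_rpow (by positivity) hlp hA0.le).trans hp2
        have hyx : (y : ℝ) ≤ x := by
          have h1 : (p : ℝ) ^ (δ / 4) ≤ (x : ℝ) ^ (δ / 4) :=
            Real.rpow_le_rpow (Nat.cast_nonneg _) (by exact_mod_cast (hE p hpE).2.1) (by positivity)
          have h2 : (x : ℝ) ^ (δ / 4) ≤ (x : ℝ) ^ (1 : ℝ) :=
            Real.rpow_le_rpow_of_exponent_le hx1 (by linarith)
          rw [Real.rpow_one] at h2
          linarith
        obtain ⟨hly, k, hk1, hk2, hk3⟩ := num2 hδ hA hL hL2 hy1 hyx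
        refine one_y (by positivity) (by positivity) (by linarith) hCb hbas hx hly hk1 hk2 hk3 ?_ P
          (F y) ?_
        · have h1 : (x : ℝ) ^ (50 / A) ≤ (x : ℝ) ^ (1 / 2 : ℝ) := by
            rw [hAδ]
            exact Real.rpow_le_rpow_of_exponent_le hx1 (by linarith)
          calc 2 * Cb * ((x : ℝ) ^ (50 / A) * L) = (x : ℝ) ^ (50 / A) * (2 * Cb * L) := by ring
            _ ≤ (x : ℝ) ^ (1 / 2 : ℝ) * (x : ℝ) ^ (1 / 2 : ℝ) := by gcongr
            _ = x := by
                rw [← Real.rpow_add hx0]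
                norm_num
        · intro p' hp'
          rw [hF, Finset.mem_filter] at hp'
          exact ⟨(hE p' hp'.1).1, (hE p' hp'.1).2.1, hp'.2.2.2.2⟩
    have hcard : (E.card : ℝ) ≤ (x : ℝ) ^ (δ / 2) + (x : ℝ) ^ (δ / 4) *
        (2 * Cb * ((x : ℝ) ^ (50 / A) * L) * (x : ℝ) ^ (26 * (δ / 1000 + 2 * (δ / 1000)))) := by
      have h1 : E.card ≤ ⌊(x : ℝ) ^ (δ / 2)⌋₊ + ∑ y ∈ Y, (F y).card := by
        calc E.card ≤ (Finset.Icc 1 ⌊(x : ℝ) ^ (δ / 2)⌋₊ ∪ Y.biUnion F).card :=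
              Finset.card_le_card hsub
          _ ≤ (Finset.Icc 1 ⌊(x : ℝ) ^ (δ / 2)⌋₊).card + (Y.biUnion F).card :=
              Finset.card_union_le _ _
          _ ≤ ⌊(x : ℝ) ^ (δ / 2)⌋₊ + ∑ y ∈ Y, (F y).card := by
              refine add_le_add ?_ Finset.card_biUnion_le
              simp
      have h2 : (E.card : ℝ) ≤ (⌊(x : ℝ) ^ (δ / 2)⌋₊ : ℝ) + ∑ y ∈ Y, ((F y).card : ℝ) := by
        exact_mod_cast h1
      refine h2.trans (add_le_add (Nat.floor_le (by positivity)) ?_)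
      calc ∑ y ∈ Y, ((F y).card : ℝ) ≤ ∑ y ∈ Y,
            2 * Cb * ((x : ℝ) ^ (50 / A) * L) * (x : ℝ) ^ (26 * (δ / 1000 + 2 * (δ / 1000))) :=
            Finset.sum_le_sum hone
        _ = (Y.card : ℝ) * (2 * Cb * ((x : ℝ) ^ (50 / A) * L) *
              (x : ℝ) ^ (26 * (δ / 1000 + 2 * (δ / 1000)))) := by
            rw [Finset.sum_const, nsmul_eq_mul]
        _ ≤ _ := by
            gcongr
            rw [hY, Nat.card_Icc, Nat.add_sub_cancel]
            exact Nat.floor_le (by positivity)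
    have hmain : (x : ℝ) ^ (δ / 4) *
        (2 * Cb * ((x : ℝ) ^ (50 / A) * L) * (x : ℝ) ^ (26 * (δ / 1000 + 2 * (δ / 1000)))) ≤
        2 * Cb * (x : ℝ) ^ δ := by
      calc (x : ℝ) ^ (δ / 4) *
          (2 * Cb * ((x : ℝ) ^ (50 / A) * L) * (x : ℝ) ^ (26 * (δ / 1000 + 2 * (δ / 1000))))
          ≤ (x : ℝ) ^ (δ / 4) *
          (2 * Cb * ((x : ℝ) ^ (50 / A) * (x : ℝ) ^ (δ / 2)) *
            (x : ℝ) ^ (26 * (δ / 1000 + 2 * (δ / 1000)))) := by gcongr
        _ = 2 * Cb * (x : ℝ) ^ (δ / 4 + 50 / A + δ / 2 + 26 * (δ / 1000 + 2 * (δ / 1000))) := by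
            rw [Real.rpow_add hx0, Real.rpow_add hx0, Real.rpow_add hx0]
            ring
        _ ≤ 2 * Cb * (x : ℝ) ^ δ := by
            refine mul_le_mul_of_nonneg_left ?_ (by positivity)
            apply Real.rpow_le_rpow_of_exponent_le hx1
            rw [hAδ]
            linarith
    have h2 : (x : ℝ) ^ (δ / 2) ≤ (x : ℝ) ^ δ := Real.rpow_le_rpow_of_exponent_le hx1 (by linarith)
    have h3 : (0 : ℝ) ≤ (x₁ + 1) * (x : ℝ) ^ δ := by positivity
    calc (E.card : ℝ) ≤ (x : ℝ) ^ δ + 2 * Cb * (x : ℝ) ^ δ := by linarith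
      _ ≤ (2 * Cb + 1 + (x₁ + 1)) * (x : ℝ) ^ δ := by linarith

/-- **GP2-CNT2** -/
theorem t_CNT2 (hB : S_BAS2) : S_CNT2 := by
  intro δ hδ
  set δ' := min δ 1 with hd
  have h0 : 0 < δ' := lt_min hδ one_pos
  have h1 : δ' ≤ 1 := min_le_right _ _
  have h2 : δ' ≤ δ := min_le_left _ _
  obtain ⟨C, hC, h⟩ := cnt2_main hB δ' h0 h1
  refine ⟨800 / δ', δ' / 1000, δ' / 4, C, ?_, by positivity, by linarith, by positivity,
    by linarith, hC, fun P x hx E hE => ?_⟩
  · rw [le_div_iff₀ h0]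
    linarith
  · refine (h P x hx E hE).trans ?_
    have hx1 : (1 : ℝ) ≤ x := by exact_mod_cast hx
    exact mul_le_mul_of_nonneg_left (Real.rpow_le_rpow_of_exponent_le hx1 h2) hC.le

end Pool.Agent.J4H57.GP
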