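import Pool.Agent.J4H57.GP.Zb
import Pool.Agent.J4H78.GP.Pair

/-!
# Project GP (MP_d0fd9b_nt), T: theta sums of class group characters in degree four
-/

set_option autoImplicit false

open NumberField Complex Filter Topology MeasureTheory
open Pool.Agent.Y773 (VM cc hf FT PIdl gen Sc Reps exists_unique_class span_gen gen_ne_zero)

namespace Pool.Agent.J4H57.GP

open Pool.Agent.J4H78.GP

variable {L : Type} [Field L] [NumberField L]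

/-! ## Characters of the class group -/

theorem eta_principal {η : Ideal (𝓞 L) →*₀ ℂ} (h : IsCl L η) {𝔞 : Ideal (𝓞 L)} (h0 : 𝔞 ≠ ⊥)
    (hp : 𝔞.IsPrincipal) : η 𝔞 = 1 := by
  obtain ⟨x, hx⟩ := hp.principal
  have hx' : 𝔞 = Ideal.span {x} := hx
  have hx0 : x ≠ 0 := by
    rintro rfl
    rw [Ideal.span_singleton_eq_bot.mpr rfl] at hx'
    exact h0 hx'
  rw [hx', h x hx0]

theorem norm_eta {η : Ideal (𝓞 L) →*₀ ℂ} (h : IsCl L η) {𝔞 : Ideal (𝓞 L)} (h0 : 𝔞 ≠ ⊥) :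
    ‖η 𝔞‖ = 1 := by
  have h1 : 𝔞 ∈ nonZeroDivisors (Ideal (𝓞 L)) := by
    rw [mem_nonZeroDivisors_iff_ne_zero]
    exact h0
  have h2 : (ClassGroup.mk0 (⟨𝔞, h1⟩ : nonZeroDivisors (Ideal (𝓞 L)))) ^
      Fintype.card (ClassGroup (𝓞 L)) = 1 := pow_card_eq_one
  rw [← map_pow, ClassGroup.mk0_eq_one_iff] at h2
  have h3 : η 𝔞 ^ Fintype.card (ClassGroup (𝓞 L)) = 1 := by
    rw [← map_pow]
    exact eta_principal h (pow_ne_zero _ h0) h2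
  have h4 : ‖η 𝔞‖ ^ Fintype.card (ClassGroup (𝓞 L)) = 1 := by
    rw [← norm_pow, h3, norm_one]
  exact (pow_eq_one_iff_of_nonneg (norm_nonneg _) Fintype.card_ne_zero).mp h4

theorem eta_ne {η : Ideal (𝓞 L) →*₀ ℂ} (h : IsCl L η) {𝔞 : Ideal (𝓞 L)} (h0 : 𝔞 ≠ ⊥) : η 𝔞 ≠ 0 := by
  intro h1
  have h2 := norm_eta h h0
  rw [h1, norm_zero] at h2
  exact zero_ne_one h2

theorem eta_Sc {η : Ideal (𝓞 L) →*₀ ℂ} (h : IsCl L η) {𝔟 : Ideal (𝓞 L)} (hb : 𝔟 ≠ ⊥)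
    {𝔞 : Ideal (𝓞 L)} (ha : 𝔞 ∈ Sc 𝔟) : η 𝔞 = (η 𝔟)⁻¹ := by
  have h1 : η (𝔞 * 𝔟) = 1 := eta_principal h (mul_ne_zero ha.1 hb) ha.2
  rw [map_mul] at h1
  exact eq_inv_of_mul_eq_one_left h1

theorem eta_mk0 {η : Ideal (𝓞 L) →*₀ ℂ} (h : IsCl L η) {𝔞 𝔟 : Ideal (𝓞 L)} (ha : 𝔞 ≠ ⊥) (hb : 𝔟 ≠ ⊥)
    (he : ClassGroup.mk0 ⟨𝔞, mem_nonZeroDivisors_of_ne_zero ha⟩ =
      ClassGroup.mk0 ⟨𝔟, mem_nonZeroDivisors_of_ne_zero hb⟩) : η 𝔞 = η 𝔟 := by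
  rw [ClassGroup.mk0_eq_mk0_iff] at he
  obtain ⟨x, y, hx, hy, hxy⟩ := he
  have h1 := congrArg η hxy
  rw [map_mul, map_mul, h x hx, h y hy, one_mul, one_mul] at h1
  exact h1

/-- orthogonality -/
theorem orth {η : Ideal (𝓞 L) →*₀ ℂ} (h : IsCl L η) (hn : NonTriv η)
    {𝔟 : ClassGroup (𝓞 L) → Ideal (𝓞 L)} (hr : Reps 𝔟) : ∑ c, (η (𝔟 c))⁻¹ = 0 := by
  obtain ⟨𝔞, ha, h1⟩ := hn
  let e : ClassGroup (𝓞 L) ≃ ClassGroup (𝓞 L) := Equiv.ofBijective _ hr.bij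
  have he : ∀ c, e c = ClassGroup.mk0 ⟨𝔟 c, mem_nonZeroDivisors_of_ne_zero (hr.ne_bot c)⟩ :=
    fun c => rfl
  let g : ClassGroup (𝓞 L) := ClassGroup.mk0 ⟨𝔞, mem_nonZeroDivisors_of_ne_zero ha⟩
  let σ : ClassGroup (𝓞 L) ≃ ClassGroup (𝓞 L) := (e.trans (Equiv.mulRight g)).trans e.symm
  have hσ : ∀ c, η (𝔟 (σ c)) = η (𝔟 c) * η 𝔞 := by
    intro c
    have h2 : e (σ c) = e c * g := by
      simp [σ]
    rw [he, he] at h2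
    have h3 : ClassGroup.mk0 ⟨𝔟 c, mem_nonZeroDivisors_of_ne_zero (hr.ne_bot c)⟩ * g =
        ClassGroup.mk0 ⟨𝔟 c * 𝔞, mem_nonZeroDivisors_of_ne_zero (mul_ne_zero (hr.ne_bot c) ha)⟩ := by
      rw [← map_mul]
      rfl
    rw [h3] at h2
    rw [eta_mk0 h (hr.ne_bot _) (mul_ne_zero (hr.ne_bot c) ha) h2, map_mul]
  have h4 : ∑ c, (η (𝔟 c))⁻¹ = (η 𝔞)⁻¹ * ∑ c, (η (𝔟 c))⁻¹ := by
    calc ∑ c, (η (𝔟 c))⁻¹ = ∑ c, (η (𝔟 (σ c)))⁻¹ := (Equiv.sum_comp σ fun c => (η (𝔟 c))⁻¹).symm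
      _ = ∑ c, (η 𝔞)⁻¹ * (η (𝔟 c))⁻¹ := by
          refine Finset.sum_congr rfl fun c _ => ?_
          rw [hσ, mul_inv, mul_comm]
      _ = _ := by rw [Finset.mul_sum]
  have h5 : (1 - (η 𝔞)⁻¹) * ∑ c, (η (𝔟 c))⁻¹ = 0 := by
    rw [sub_mul, one_mul, ← h4, sub_self]
  rcases mul_eq_zero.mp h5 with h6 | h6
  · exfalso
    apply h1
    have h7 : (η 𝔞)⁻¹ = 1 := (sub_eq_zero.mp h6).symm
    exact inv_eq_one.mp h7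
  · exact h6

/-! ## Representatives of the classes -/

theorem exists_reps (L : Type) [Field L] [NumberField L] :
    ∃ 𝔟 : ClassGroup (𝓞 L) → Ideal (𝓞 L), Reps 𝔟 := by
  choose r hr using (ClassGroup.mk0_surjective (R := 𝓞 L))
  refine ⟨fun c => (r c).1, fun c => ?_, ?_⟩
  · exact mem_nonZeroDivisors_iff_ne_zero.mp (r c).2
  · have : (fun c => ClassGroup.mk0 (⟨(r c).1, (r c).2⟩ : nonZeroDivisors (Ideal (𝓞 L)))) = id := by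
      funext c
      exact hr c
    exact this ▸ Function.bijective_id

theorem diff_ne_bot (L : Type) [Field L] [NumberField L] : differentIdeal ℤ (𝓞 L) ≠ ⊥ :=
  differentIdeal_ne_bot

theorem exists_dual {𝔟 : Ideal (𝓞 L)} (hb : 𝔟 ≠ ⊥) : ∃ (𝔟' : Ideal (𝓞 L)) (k : ℕ), 0 < k ∧ 𝔟' ≠ ⊥ ∧
    𝔟' * (𝔟 * differentIdeal ℤ (𝓞 L)) = Ideal.span {(k : 𝓞 L)} := by
  have h0 : 𝔟 * differentIdeal ℤ (𝓞 L) ≠ ⊥ := mul_ne_zero hb (diff_ne_bot L)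
  set k := Ideal.absNorm (𝔟 * differentIdeal ℤ (𝓞 L)) with hk
  have hk0 : 0 < k := Nat.pos_of_ne_zero (by rwa [hk, Ne, Ideal.absNorm_eq_zero_iff])
  have h1 : Ideal.span {(k : 𝓞 L)} ≤ 𝔟 * differentIdeal ℤ (𝓞 L) := by
    rw [Ideal.span_singleton_le_iff_mem]
    exact Ideal.absNorm_mem _
  obtain ⟨𝔟', h2⟩ := Ideal.dvd_iff_le.mpr h1
  refine ⟨𝔟', k, hk0, ?_, by rw [h2, mul_comm]⟩
  rintro rfl
  rw [Ideal.mul_bot, Ideal.span_singleton_eq_bot] at h2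
  have : (k : 𝓞 L) ≠ 0 := by exact_mod_cast hk0.ne'
  exact this h2

theorem reps_dual {𝔟 𝔟' : ClassGroup (𝓞 L) → Ideal (𝓞 L)} (hr : Reps 𝔟) (k : ClassGroup (𝓞 L) → ℕ)
    (h0 : ∀ c, 𝔟' c ≠ ⊥)
    (h : ∀ c, 𝔟' c * (𝔟 c * differentIdeal ℤ (𝓞 L)) = Ideal.span {(k c : 𝓞 L)}) : Reps 𝔟' := by
  refine ⟨h0, ?_⟩
  let g : ClassGroup (𝓞 L) :=
    ClassGroup.mk0 ⟨differentIdeal ℤ (𝓞 L), mem_nonZeroDivisors_of_ne_zero (diff_ne_bot L)⟩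
  have h1 : (fun c => ClassGroup.mk0 ⟨𝔟' c, mem_nonZeroDivisors_of_ne_zero (h0 c)⟩) =
      fun c => ((ClassGroup.mk0 ⟨𝔟 c, mem_nonZeroDivisors_of_ne_zero (hr.ne_bot c)⟩) * g)⁻¹ := by
    funext c
    rw [eq_inv_iff_mul_eq_one]
    have h2 : ClassGroup.mk0 ⟨𝔟' c, mem_nonZeroDivisors_of_ne_zero (h0 c)⟩ *
        (ClassGroup.mk0 ⟨𝔟 c, mem_nonZeroDivisors_of_ne_zero (hr.ne_bot c)⟩ * g) =
        ClassGroup.mk0 ⟨𝔟' c * (𝔟 c * differentIdeal ℤ (𝓞 L)), mem_nonZeroDivisors_of_ne_zero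
          (mul_ne_zero (h0 c) (mul_ne_zero (hr.ne_bot c) (diff_ne_bot L)))⟩ := by
      rw [← map_mul, ← map_mul]
      rfl
    rw [h2, ClassGroup.mk0_eq_one_iff]
    rw [h c]
    exact ⟨⟨_, rfl⟩⟩
  rw [h1]
  have h3 : Function.Bijective fun x : ClassGroup (𝓞 L) => (x * g)⁻¹ :=
    (Equiv.inv _).bijective.comp (Equiv.mulRight g).bijective
  exact h3.comp hr.bij

/-! ## Sums over the classes -/

theorem sum_dec {E : Type} [NormedAddCommGroup E] [CompleteSpace E]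
    {𝔟 : ClassGroup (𝓞 L) → Ideal (𝓞 L)} (hr : Reps 𝔟) {f : Ideal (𝓞 L) → E} (hf : Summable f)
    (h0 : f ⊥ = 0) : ∑ c, ∑' 𝔞 : Sc (𝔟 c), f 𝔞 = ∑' 𝔞, f 𝔞 := by
  classical
  have h1 : ∀ c, ∑' 𝔞 : Sc (𝔟 c), f 𝔞 = ∑' 𝔞, (Sc (𝔟 c)).indicator f 𝔞 :=
    fun c => tsum_subtype (Sc (𝔟 c)) f
  simp_rw [h1]
  rw [← Summable.tsum_finsetSum (fun c _ => hf.indicator _)]
  refine tsum_congr fun 𝔞 => ?_
  by_cases h𝔞 : 𝔞 = ⊥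
  · rw [h𝔞, h0]
    refine Finset.sum_eq_zero fun c _ => ?_
    rw [Set.indicator_of_notMem]
    exact fun h => h.1 rfl
  · obtain ⟨c, hc, huniq⟩ := exists_unique_class hr h𝔞
    rw [Finset.sum_eq_single c]
    · rw [Set.indicator_of_mem hc]
    · intro c' _ hc'
      rw [Set.indicator_of_notMem]
      exact fun hmem => hc' (huniq c' hmem)
    · exact fun h => absurd (Finset.mem_univ c) h

open Classical in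
theorem sum_ind {𝔟 : Ideal (𝓞 L)} (hb : 𝔟 ≠ ⊥) (g : ℕ → ℂ) :
    ∑' J : PIdl L, ind 𝔟 (gen J) * g (Ideal.absNorm J.1) =
      ∑' 𝔞 : Sc 𝔟, g (Ideal.absNorm (𝔞 : Ideal (𝓞 L)) * Ideal.absNorm 𝔟) := by
  let i : Sc 𝔟 → PIdl L := fun 𝔞 => ⟨𝔞.1 * 𝔟, mul_ne_zero 𝔞.2.1 hb, 𝔞.2.2⟩
  have hi : Function.Injective i := by
    intro a b h
    have h1 : a.1 * 𝔟 = b.1 * 𝔟 := congrArg Subtype.val h
    exact Subtype.ext (mul_right_cancel₀ hb h1)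
  rw [← hi.tsum_eq]
  · refine tsum_congr fun 𝔞 => ?_
    have h2 : (i 𝔞).1 = 𝔞.1 * 𝔟 := rfl
    have h1 : gen (i 𝔞) ∈ 𝔟 := by
      have h3 : gen (i 𝔞) ∈ (i 𝔞).1 := by
        rw [← span_gen (i 𝔞)]
        exact Ideal.mem_span_singleton_self _
      rw [h2] at h3
      exact Ideal.mul_le_right (I := 𝔞.1) (J := 𝔟) h3
    rw [h2, map_mul]
    unfold ind
    rw [if_pos h1, one_mul]
  · intro J hJ
    rw [Function.mem_support] at hJ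
    have h1 : gen J ∈ 𝔟 := by
      by_contra h
      apply hJ
      unfold ind
      rw [if_neg h, zero_mul]
    have h2 : J.1 ≤ 𝔟 := by
      rw [← span_gen J, Ideal.span_singleton_le_iff_mem]
      exact h1
    obtain ⟨𝔞, h3⟩ := Ideal.dvd_iff_le.mpr h2
    refine ⟨⟨𝔞, ?_, ?_⟩, Subtype.ext ?_⟩
    · rintro rfl
      rw [Ideal.mul_bot] at h3
      exact J.2.1 h3
    · rw [mul_comm, ← h3]
      exact J.2.2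
    · change 𝔞 * 𝔟 = J.1
      rw [h3, mul_comm]

/-! ## The theorem -/

/-- the theta series of an ideal -/
theorem hf_ind [IsTotallyReal L] (hU : S_UNF) (hL : Module.finrank ℚ L = 4) : ∃ c₀ : ℝ, 0 < c₀ ∧
    ∀ (𝔟 : Ideal (𝓞 L)), 𝔟 ≠ ⊥ → ∀ t : ℝ, 0 < t → hf (fun _ => 0) (ind 𝔟) t = 1 +
      c₀ * ∑' 𝔞 : Sc 𝔟, ((W ((Ideal.absNorm (𝔞 : Ideal (𝓞 L)) : ℝ) * Ideal.absNorm 𝔟 * t) : ℝ) : ℂ) := by
  obtain ⟨c₀, hc, h⟩ := hU L hL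
  refine ⟨c₀, hc, fun 𝔟 hb t ht => ?_⟩
  have h1 := (h (ind 𝔟) 1 ?_ ?_ t ht).2
  · rw [h1]
    have h2 : ind 𝔟 0 = 1 := by
      unfold ind
      exact if_pos 𝔟.zero_mem
    rw [h2]
    have h3 := sum_ind hb (fun n => ((W ((n : ℝ) * t) : ℝ) : ℂ))
    rw [h3]
    congr 2
    refine tsum_congr fun 𝔞 => ?_
    rw [Nat.cast_mul]
  · intro x
    unfold ind
    split_ifs
    · rw [norm_one]
    · rw [norm_zero]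
      exact zero_le_one
  · intro u x
    unfold ind
    have h2 : (u : 𝓞 L) * x ∈ 𝔟 ↔ x ∈ 𝔟 := Ideal.unit_mul_mem_iff_mem 𝔟 u.isUnit
    by_cases h3 : x ∈ 𝔟
    · rw [if_pos h3, if_pos (h2.mpr h3)]
    · rw [if_neg h3, if_neg fun h4 => h3 (h2.mp h4)]

theorem absNorm_pos' {𝔟 : Ideal (𝓞 L)} (h : 𝔟 ≠ ⊥) : (0 : ℝ) < Ideal.absNorm 𝔟 := by
  have : Ideal.absNorm 𝔟 ≠ 0 := by rwa [Ne, Ideal.absNorm_eq_zero_iff]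
  exact_mod_cast Nat.pos_of_ne_zero this

/-- the weight summed over the nonzero ideals -/
theorem sum_W (hW : S_W) {C₁ C₂ : ℝ} (hC₁ : ∀ u : ℝ, 0 < u → W u ≤ C₁ * u ^ (-2 : ℝ)) (h1 : 0 < C₁)
    (hs : Summable fun 𝔞 : {𝔞 : Ideal (𝓞 L) // 𝔞 ≠ ⊥} => (Ideal.absNorm 𝔞.1 : ℝ) ^ (-2 : ℝ))
    (hC₂ : ∑' 𝔞 : {𝔞 : Ideal (𝓞 L) // 𝔞 ≠ ⊥}, (Ideal.absNorm 𝔞.1 : ℝ) ^ (-2 : ℝ) ≤ C₂)
    {t : ℝ} (ht : 0 < t) :
    (Summable fun 𝔞 : Ideal (𝓞 L) => ‖triv L 𝔞‖ * W ((Ideal.absNorm 𝔞 : ℝ) * t)) ∧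
      ∑' 𝔞 : Ideal (𝓞 L), ‖triv L 𝔞‖ * W ((Ideal.absNorm 𝔞 : ℝ) * t) ≤ C₁ * C₂ * t ^ (-2 : ℝ) := by
  have h2 : Summable fun 𝔞 : Ideal (𝓞 L) =>
      Set.indicator {𝔞 : Ideal (𝓞 L) | 𝔞 ≠ ⊥} (fun 𝔞 => (Ideal.absNorm 𝔞 : ℝ) ^ (-2 : ℝ)) 𝔞 :=
    (summable_subtype_iff_indicator (f := fun 𝔞 : Ideal (𝓞 L) => (Ideal.absNorm 𝔞 : ℝ) ^ (-2 : ℝ))
      (s := {𝔞 : Ideal (𝓞 L) | 𝔞 ≠ ⊥})).mp hs
  have h3 : ∑' 𝔞 : Ideal (𝓞 L),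
      Set.indicator {𝔞 : Ideal (𝓞 L) | 𝔞 ≠ ⊥} (fun 𝔞 => (Ideal.absNorm 𝔞 : ℝ) ^ (-2 : ℝ)) 𝔞 ≤ C₂ := by
    rw [← tsum_subtype {𝔞 : Ideal (𝓞 L) | 𝔞 ≠ ⊥} (fun 𝔞 => (Ideal.absNorm 𝔞 : ℝ) ^ (-2 : ℝ))]
    exact hC₂
  have h4 : ∀ 𝔞 : Ideal (𝓞 L), ‖triv L 𝔞‖ * W ((Ideal.absNorm 𝔞 : ℝ) * t) ≤
      C₁ * t ^ (-2 : ℝ) *
        Set.indicator {𝔞 : Ideal (𝓞 L) | 𝔞 ≠ ⊥} (fun 𝔞 => (Ideal.absNorm 𝔞 : ℝ) ^ (-2 : ℝ)) 𝔞 := by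
    intro 𝔞
    by_cases h0 : 𝔞 = ⊥
    · rw [h0, ← Ideal.zero_eq_bot, map_zero, norm_zero, zero_mul]
      refine mul_nonneg (mul_nonneg h1.le (Real.rpow_nonneg ht.le _)) ?_
      exact Set.indicator_nonneg (fun _ _ => Real.rpow_nonneg (Nat.cast_nonneg _) _) _
    · have hN := absNorm_pos' h0
      rw [triv_of_ne h0, norm_one, one_mul,
        Set.indicator_of_mem (show 𝔞 ∈ {𝔞 : Ideal (𝓞 L) | 𝔞 ≠ ⊥} from h0)]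
      have h5 := hC₁ ((Ideal.absNorm 𝔞 : ℝ) * t) (by positivity)
      rw [Real.mul_rpow hN.le ht.le] at h5
      calc _ ≤ _ := h5
        _ = _ := by ring
  have h5 : Summable fun 𝔞 : Ideal (𝓞 L) => ‖triv L 𝔞‖ * W ((Ideal.absNorm 𝔞 : ℝ) * t) :=
    Summable.of_nonneg_of_le (fun 𝔞 => mul_nonneg (norm_nonneg _) (hW.1 _)) h4
      (h2.mul_left (C₁ * t ^ (-2 : ℝ)))
  refine ⟨h5, ?_⟩
  calc ∑' 𝔞 : Ideal (𝓞 L), ‖triv L 𝔞‖ * W ((Ideal.absNorm 𝔞 : ℝ) * t)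
      ≤ ∑' 𝔞 : Ideal (𝓞 L), C₁ * t ^ (-2 : ℝ) *
        Set.indicator {𝔞 : Ideal (𝓞 L) | 𝔞 ≠ ⊥} (fun 𝔞 => (Ideal.absNorm 𝔞 : ℝ) ^ (-2 : ℝ)) 𝔞 :=
        h5.tsum_le_tsum h4 (h2.mul_left _)
    _ = C₁ * t ^ (-2 : ℝ) * ∑' 𝔞 : Ideal (𝓞 L),
        Set.indicator {𝔞 : Ideal (𝓞 L) | 𝔞 ≠ ⊥} (fun 𝔞 => (Ideal.absNorm 𝔞 : ℝ) ^ (-2 : ℝ)) 𝔞 := by
        rw [tsum_mul_left]
    _ ≤ C₁ * t ^ (-2 : ℝ) * C₂ := mul_le_mul_of_nonneg_left h3 (by positivity)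
    _ = _ := by ring

/-- **GP-T** -/
theorem t_T (hW : S_W) (hU : S_UNF) (hF : S_FEB) : S_T := by
  obtain ⟨C₂, hC₂, hZ⟩ := t_ZB
  obtain ⟨C₁, hC₁, hW2⟩ := hW.2.1 2 two_pos
  refine ⟨C₁ * C₂, by positivity, ?_⟩
  intro L _ _ _ hL η hη hn X hX
  obtain ⟨c₀, hc₀, hh⟩ := hf_ind hU hL
  obtain ⟨𝔟, hr⟩ := exists_reps L
  choose 𝔟' k hk0 hb' hbk using fun c => exists_dual (hr.ne_bot c)
  have hr' := reps_dual hr k hb' hbk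
  set d : ℝ := |(discr L : ℝ)| with hd
  have hd1 : 1 ≤ d := by
    have h1 : (1 : ℤ) ≤ |discr L| := Int.one_le_abs (discr_ne_zero L)
    have h2 : ((1 : ℤ) : ℝ) ≤ ((|discr L| : ℤ) : ℝ) := by exact_mod_cast h1
    rw [hd]
    rw [Int.cast_abs] at h2
    simpa using h2
  have hd0 : 0 < d := by linarith
  set t : ℝ := X / d with ht
  have ht0 : 0 < t := by positivity
  obtain ⟨hZs, hZt⟩ := hZ L hL
  obtain ⟨hs2, hs2'⟩ := sum_W hW hW2 hC₁ hZs hZt ht0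
  have hη0 : η ⊥ = 0 := map_zero η
  -- the first expression
  have e1 : ∑ c, (η (𝔟 c))⁻¹ * hf (fun _ => 0) (ind (𝔟 c)) (1 / ((Ideal.absNorm (𝔟 c) : ℝ) * X)) =
      c₀ * ∑' 𝔞 : Ideal (𝓞 L), η 𝔞 * ((W ((Ideal.absNorm 𝔞 : ℝ) / X) : ℝ) : ℂ) := by
    have h1 : ∀ c, (η (𝔟 c))⁻¹ * hf (fun _ => 0) (ind (𝔟 c))
        (1 / ((Ideal.absNorm (𝔟 c) : ℝ) * X)) = (η (𝔟 c))⁻¹ + c₀ *
          ∑' 𝔞 : Sc (𝔟 c), η 𝔞 * ((W ((Ideal.absNorm (𝔞 : Ideal (𝓞 L)) : ℝ) / X) : ℝ) : ℂ) := by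
      intro c
      have hN := absNorm_pos' (hr.ne_bot c)
      rw [hh (𝔟 c) (hr.ne_bot c) _ (by positivity), mul_add, mul_one]
      congr 1
      rw [mul_left_comm, ← tsum_mul_left]
      congr 1
      refine tsum_congr fun 𝔞 => ?_
      rw [eta_Sc hη (hr.ne_bot c) 𝔞.2]
      congr 3
      field_simp
    simp_rw [h1]
    rw [Finset.sum_add_distrib, orth hη hn hr, zero_add, ← Finset.mul_sum]
    congr 1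
    refine sum_dec hr (f := fun 𝔞 => η 𝔞 * ((W ((Ideal.absNorm 𝔞 : ℝ) / X) : ℝ) : ℂ)) ?_ ?_
    · exact sum_ideal_W hW t_ZB hL (isCl_norm hη) hX
    · simp only [hη0, zero_mul]
  -- the second expression
  set B : ℂ := ∑ c, (η (𝔟 c))⁻¹ *
    ∑' 𝔞 : Sc (𝔟' c), ((W ((Ideal.absNorm (𝔞 : Ideal (𝓞 L)) : ℝ) * t) : ℝ) : ℂ) with hB
  have e2 : ∑ c, (η (𝔟 c))⁻¹ * hf (fun _ => 0) (ind (𝔟 c)) (1 / ((Ideal.absNorm (𝔟 c) : ℝ) * X)) =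
      (((Real.sqrt d)⁻¹ * X : ℝ) : ℂ) * (c₀ * B) := by
    have h1 : ∀ c, (η (𝔟 c))⁻¹ * hf (fun _ => 0) (ind (𝔟 c))
        (1 / ((Ideal.absNorm (𝔟 c) : ℝ) * X)) = (((Real.sqrt d)⁻¹ * X : ℝ) : ℂ) * (η (𝔟 c))⁻¹ +
          (((Real.sqrt d)⁻¹ * X : ℝ) : ℂ) * (c₀ * ((η (𝔟 c))⁻¹ *
          ∑' 𝔞 : Sc (𝔟' c), ((W ((Ideal.absNorm (𝔞 : Ideal (𝓞 L)) : ℝ) * t) : ℝ) : ℂ))) := by
      intro c
      have hN' := absNorm_pos' (hb' c)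
      rw [hF L (𝔟 c) (𝔟' c) (k c) (hk0 c) (hbk c) X hX, ← hd,
        hh (𝔟' c) (hb' c) _ (by positivity)]
      have h2 : ∀ 𝔞 : Ideal (𝓞 L), (Ideal.absNorm 𝔞 : ℝ) * Ideal.absNorm (𝔟' c) *
          (X / ((Ideal.absNorm (𝔟' c) : ℝ) * d)) = (Ideal.absNorm 𝔞 : ℝ) * t := by
        intro 𝔞
        rw [ht]
        field_simp
      simp_rw [h2]
      ring
    simp_rw [h1]
    rw [Finset.sum_add_distrib, ← Finset.mul_sum, orth hη hn hr, mul_zero, zero_add,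
      ← Finset.mul_sum, ← Finset.mul_sum]
  have e3 : ∑' 𝔞 : Ideal (𝓞 L), η 𝔞 * ((W ((Ideal.absNorm 𝔞 : ℝ) / X) : ℝ) : ℂ) =
      (((Real.sqrt d)⁻¹ * X : ℝ) : ℂ) * B := by
    have h1 : (c₀ : ℂ) ≠ 0 := by exact_mod_cast hc₀.ne'
    apply mul_left_cancel₀ h1
    rw [← e1, e2]
    ring
  have hBn : ‖B‖ ≤ C₁ * C₂ * t ^ (-2 : ℝ) := by
    have h1 : ∀ c, ‖(η (𝔟 c))⁻¹ *
        ∑' 𝔞 : Sc (𝔟' c), ((W ((Ideal.absNorm (𝔞 : Ideal (𝓞 L)) : ℝ) * t) : ℝ) : ℂ)‖ =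
        ∑' 𝔞 : Sc (𝔟' c), ‖triv L (𝔞 : Ideal (𝓞 L))‖ *
          W ((Ideal.absNorm (𝔞 : Ideal (𝓞 L)) : ℝ) * t) := by
      intro c
      rw [norm_mul, norm_inv, norm_eta hη (hr.ne_bot c), inv_one, one_mul, ← Complex.ofReal_tsum,
        Complex.norm_real, Real.norm_of_nonneg (tsum_nonneg fun _ => hW.1 _)]
      refine tsum_congr fun 𝔞 => ?_
      rw [triv_of_ne 𝔞.2.1, norm_one, one_mul]
    calc ‖B‖ ≤ ∑ c, ‖(η (𝔟 c))⁻¹ *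
        ∑' 𝔞 : Sc (𝔟' c), ((W ((Ideal.absNorm (𝔞 : Ideal (𝓞 L)) : ℝ) * t) : ℝ) : ℂ)‖ :=
          norm_sum_le _ _
      _ = ∑ c, ∑' 𝔞 : Sc (𝔟' c), ‖triv L (𝔞 : Ideal (𝓞 L))‖ *
          W ((Ideal.absNorm (𝔞 : Ideal (𝓞 L)) : ℝ) * t) := Finset.sum_congr rfl fun c _ => h1 c
      _ = ∑' 𝔞 : Ideal (𝓞 L), ‖triv L 𝔞‖ * W ((Ideal.absNorm 𝔞 : ℝ) * t) := by
          refine sum_dec hr' (f := fun 𝔞 => ‖triv L 𝔞‖ * W ((Ideal.absNorm 𝔞 : ℝ) * t)) hs2 ?_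
          have : triv L ⊥ = 0 := map_zero _
          simp only [this, norm_zero, zero_mul]
      _ ≤ _ := hs2'
  have hsq : (Real.sqrt d)⁻¹ ≤ 1 := by
    apply inv_le_one_of_one_le₀
    rw [Real.one_le_sqrt]
    exact hd1
  rw [e3, norm_mul, Complex.norm_real, Real.norm_of_nonneg (by positivity)]
  have ht2 : t ^ (-2 : ℝ) = d ^ 2 / X ^ 2 := by
    rw [ht, Real.rpow_neg (by positivity), Real.rpow_two, div_pow, inv_div]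
  calc (Real.sqrt d)⁻¹ * X * ‖B‖ ≤ 1 * X * (C₁ * C₂ * t ^ (-2 : ℝ)) := by
        apply mul_le_mul _ hBn (norm_nonneg _) (by positivity)
        exact mul_le_mul_of_nonneg_right hsq hX.le
    _ = C₁ * C₂ * d ^ 2 / X := by
        rw [ht2]
        field_simp

end Pool.Agent.J4H57.GP
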