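import Pool.Agent.J4H78.GP.Stm2
import Pool.Agent.J4H21.GP.Chr
import Pool.Agent.J4H57.GP.T

/-!
# Project GP2 (MP_d0fd9b_nt), GAP: the spectral gap from the count of large character sums
-/

set_option autoImplicit false

open NumberField Complex Filter Topology MeasureTheory
open Pool.Agent.Y773 (VM cc)

namespace Pool.Agent.J4H57.GP

open Pool.Agent.J4H78.GP
open Pool.Agent.J4H21.GP (ext ext_apply)

variable {K : Type} [Field K] [NumberField K]

theorem isCl_ext (χ : ClassGroup (𝓞 K) →* ℂˣ) : IsCl K (ext χ) := by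
  intro x hx
  have h0 : (Ideal.span {x} : Ideal (𝓞 K)) ≠ 0 := by
    rw [Ne, Ideal.zero_eq_bot, Ideal.span_singleton_eq_bot]
    exact hx
  have h1 := ext_apply χ ⟨Ideal.span {x}, mem_nonZeroDivisors_of_ne_zero h0⟩
  have h2 : ClassGroup.mk0 (⟨Ideal.span {x}, mem_nonZeroDivisors_of_ne_zero h0⟩ :
      nonZeroDivisors (Ideal (𝓞 K))) = 1 := by
    rw [ClassGroup.mk0_eq_one_iff]
    exact ⟨⟨x, rfl⟩⟩
  rw [h2, map_one, Units.val_one] at h1
  exact h1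

theorem nonTriv2_ext (hodd : Odd (Nat.card (ClassGroup (𝓞 K)))) {χ : ClassGroup (𝓞 K) →* ℂˣ}
    (hχ : χ ≠ 1) : NonTriv2 (ext χ) := by
  obtain ⟨g, hg⟩ : ∃ g, χ g ≠ 1 := by
    by_contra hcon
    push Not at hcon
    exact hχ (MonoidHom.ext hcon)
  have hχg2 : χ g ^ 2 ≠ 1 := by
    intro h2
    apply hg
    have h3 : χ g ^ Nat.card (ClassGroup (𝓞 K)) = 1 := by
      rw [← map_pow, pow_card_eq_one', map_one]
    obtain ⟨m, hm⟩ := hodd
    rw [hm, pow_add, pow_mul, h2, one_pow, one_mul, pow_one] at h3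
    exact h3
  obtain ⟨𝔞, h𝔞⟩ := ClassGroup.mk0_surjective g
  refine ⟨(𝔞 : Ideal (𝓞 K)), nonZeroDivisors.coe_ne_zero 𝔞, ?_⟩
  rw [ext_apply, h𝔞]
  intro h
  apply hχg2
  apply Units.ext
  rw [Units.val_pow_eq_pow_val, h, Units.val_one]

/-- the ideals of norm `q` -/
theorem fib_eq_sum (η : Ideal (𝓞 K) →*₀ ℂ) {q : ℕ} (hq : q.Prime) :
    cc η q = ∑ 𝔮 ∈ (fib_finite K q).toFinset, η 𝔮 := by
  rw [Pool.Agent.Y772.DK.cc_prime η hq, finsum_mem_eq_finite_toFinset_sum _ (fib_finite K q)]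

theorem Sm_finite (P : Set ℕ) (K : Type) [Field K] [NumberField K] (y : ℝ) : (Sm P K y).Finite := by
  have h1 : (Sm P K y) ⊆ (fun 𝔮 : nonZeroDivisors (Ideal (𝓞 K)) => (𝔮 : Ideal (𝓞 K))) ⁻¹'
      {𝔞 : Ideal (𝓞 K) | Ideal.absNorm 𝔞 ≤ ⌊y⌋₊} := by
    intro 𝔮 h
    exact Nat.le_floor h.2.2
  refine Set.Finite.subset ?_ h1
  exact (Ideal.finite_setOfPred_absNorm_le ⌊y⌋₊).preimage (Subtype.val_injective.injOn)

open Classical in
/-- the sum over the ideals in `Sm` -/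
theorem sum_Sm (χ : ClassGroup (𝓞 K) →* ℂˣ) (P : Set ℕ) {y : ℝ} (hy : 0 ≤ y) :
    ∑ᶠ 𝔮 ∈ Sm P K y, ((χ (ClassGroup.mk0 𝔮) : ℂˣ) : ℂ) =
      ∑ q ∈ PS P ⌊y⌋₊, cc (ext χ) q := by
  rw [finsum_mem_eq_finite_toFinset_sum _ (Sm_finite P K y)]
  have h1 : ∀ q ∈ PS P ⌊y⌋₊, cc (ext χ) q =
      ∑ 𝔮 ∈ (Sm_finite P K y).toFinset.filter
        (fun 𝔮 : nonZeroDivisors (Ideal (𝓞 K)) => Ideal.absNorm (𝔮 : Ideal (𝓞 K)) = q),
        ((χ (ClassGroup.mk0 𝔮) : ℂˣ) : ℂ) := by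
    intro q hq
    have hq' : q ∈ Finset.Icc 1 ⌊y⌋₊ ∧ q.Prime ∧ q ∈ P := by
      have := hq
      unfold PS at this
      rwa [Finset.mem_filter] at this
    rw [fib_eq_sum (ext χ) hq'.2.1]
    symm
    refine Finset.sum_bij (fun 𝔮 _ => (𝔮 : Ideal (𝓞 K))) ?_ ?_ ?_ ?_
    · intro 𝔮 h
      rw [Finset.mem_filter] at h
      rw [Set.Finite.mem_toFinset]
      exact h.2
    · intro a _ b _ h
      exact Subtype.ext h
    · intro 𝔮 h
      rw [Set.Finite.mem_toFinset] at h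
      have h2 : Ideal.absNorm 𝔮 = q := h
      have h3 : 𝔮 ≠ ⊥ := by
        rintro rfl
        rw [Ideal.absNorm_bot] at h2
        exact hq'.2.1.ne_zero h2.symm
      refine ⟨⟨𝔮, mem_nonZeroDivisors_of_ne_zero h3⟩, ?_, rfl⟩
      rw [Finset.mem_filter, Set.Finite.mem_toFinset]
      refine ⟨⟨?_, ?_, ?_⟩, h2⟩
      · change (Ideal.absNorm 𝔮).Prime
        rw [h2]
        exact hq'.2.1
      · change Ideal.absNorm 𝔮 ∈ P
        rw [h2]
        exact hq'.2.2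
      · change ((Ideal.absNorm 𝔮 : ℕ) : ℝ) ≤ y
        rw [h2]
        exact (Nat.le_floor_iff hy).mp (Finset.mem_Icc.mp hq'.1).2
    · intro 𝔮 _
      exact (ext_apply χ 𝔮).symm
  rw [Finset.sum_congr rfl h1, Finset.sum_fiberwise_of_maps_to]
  intro 𝔮 h
  rw [Set.Finite.mem_toFinset] at h
  unfold PS
  rw [Finset.mem_filter, Finset.mem_Icc]
  exact ⟨⟨h.1.one_lt.le, Nat.le_floor h.2.2⟩, h.1, h.2.1⟩

theorem gg_diff (hK : Module.finrank ℚ K = 2) (χ : ClassGroup (𝓞 K) →* ℂˣ) (P : Set ℕ) {p : ℕ}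
    (hp : p.Prime) {m : ℕ} (hm : m < p) :
    ‖∑ q ∈ PS P m, cc (ext χ) q‖ ≤ ‖∑ q ∈ PS P m, gg p (ext χ) q‖ + 2 := by
  classical
  have h1 : ∀ q ∈ PS P m, q ≠ 2 → gg p (ext χ) q = cc (ext χ) q := by
    intro q hq h2
    unfold PS at hq
    rw [Finset.mem_filter, Finset.mem_Icc] at hq
    unfold gg
    rw [if_pos]
    rw [Nat.coprime_mul_iff_right]
    constructor
    · exact (Nat.coprime_primes hq.2.1 Nat.prime_two).mpr h2
    · exact (Nat.coprime_primes hq.2.1 hp).mpr (by omega)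
  have h2 : ‖∑ q ∈ PS P m, (cc (ext χ) q - gg p (ext χ) q)‖ ≤ 2 := by
    by_cases h3 : 2 ∈ PS P m
    · rw [Finset.sum_eq_single_of_mem 2 h3 (fun q hq h4 => by rw [h1 q hq h4, sub_self])]
      have h5 : gg p (ext χ) 2 = 0 := by
        unfold gg
        rw [if_neg]
        rw [Nat.coprime_mul_iff_right]
        rintro ⟨h, -⟩
        norm_num at h
      rw [h5, sub_zero]
      have h6 := Pool.Agent.Y772.DK.norm_cc_le (ext χ) (isCl_norm (isCl_ext χ)) 2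
      rw [hK] at h6
      exact_mod_cast h6
    · rw [Finset.sum_eq_zero, norm_zero]
      · norm_num
      · intro q hq
        rw [h1 q hq (fun h => h3 (h ▸ hq)), sub_self]
  rw [Finset.sum_sub_distrib] at h2
  have h3 := norm_sub_norm_le (∑ q ∈ PS P m, cc (ext χ) q) (∑ q ∈ PS P m, gg p (ext χ) q)
  linarith

/-- the analytic part -/
theorem num {η : ℝ} (h0 : 0 < η) (h1 : η < 1) {y : ℝ} (hy : 3 ^ (2 / η) ≤ y) :
    (⌊y⌋₊ : ℝ) ^ (1 - η) + 2 ≤ y ^ (1 - η / 2) := by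
  have hy1 : (1 : ℝ) ≤ y := le_trans (Real.one_le_rpow (by norm_num) (by positivity)) hy
  have hy0 : 0 < y := by linarith
  have h2 : 3 ≤ y ^ (η / 2) := by
    have h3 : (3 ^ (2 / η) : ℝ) ^ (η / 2) ≤ y ^ (η / 2) :=
      Real.rpow_le_rpow (by positivity) hy (by positivity)
    rw [← Real.rpow_mul (by norm_num)] at h3
    have h4 : 2 / η * (η / 2) = 1 := by field_simp
    rwa [h4, Real.rpow_one] at h3
  have h3 : (⌊y⌋₊ : ℝ) ^ (1 - η) ≤ y ^ (1 - η) :=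
    Real.rpow_le_rpow (Nat.cast_nonneg _) (Nat.floor_le hy0.le) (by linarith)
  have h4 : 1 ≤ y ^ (1 - η) := Real.one_le_rpow hy1 (by linarith)
  have h5 : y ^ (1 - η / 2) = y ^ (1 - η) * y ^ (η / 2) := by
    rw [← Real.rpow_add hy0]
    congr 1
    ring
  rw [h5]
  nlinarith

/-- **GP2-GAP** -/
theorem t_GAP (hC : S_CNT2) (hODD : S_ODD) : S_GAP := by
  intro δ hδ
  obtain ⟨A, η, c, C, hA, hη, hη1, hc, hc1, hC0, h⟩ := hC δ hδ
  obtain ⟨p₀, hp₀⟩ : ∃ p₀ : ℕ, ∀ p : ℕ, p₀ ≤ p → 3 ^ (2 / η) + 2 ≤ Real.log p :=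
    Filter.eventually_atTop.mp ((Real.tendsto_log_atTop.comp
      tendsto_natCast_atTop_atTop).eventually_ge_atTop (3 ^ (2 / η) + 2))
  refine ⟨A + 1, η / 2, c, p₀ + C, by linarith, by linarith, by linarith, hc, by positivity, ?_⟩
  intro P x hx
  classical
  set S : Set ℕ := {p : ℕ | p.Prime ∧ p ≤ x ∧ ¬ GA P (A + 1) (η / 2) c p} with hS
  have hSfin : S.Finite := (Set.finite_Iic x).subset fun p hp => hp.2.1
  have key : ∀ p ∈ S, p₀ ≤ p → Bad P A η c p := by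
    intro p hp hp0
    have hl := hp₀ p hp0
    have hp1 := hp.1
    have hG := hp.2.2
    unfold GA at hG
    push Not at hG
    obtain ⟨K, iF, iN, hK, χ, hχ, y, hy1, hy2, hy3⟩ := hG
    have h3 : (1 : ℝ) ≤ 3 ^ (2 / η) := Real.one_le_rpow (by norm_num) (by positivity)
    have hl1 : 1 ≤ Real.log p := by linarith
    have hl0 : 0 < Real.log p := by linarith
    have hly : Real.log p ≤ y := by
      calc Real.log p = (Real.log p) ^ (1 : ℝ) := (Real.rpow_one _).symm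
        _ ≤ (Real.log p) ^ (A + 1) := Real.rpow_le_rpow_of_exponent_le hl1 (by linarith)
        _ ≤ y := hy1
    have hy0 : 0 < y := by linarith
    have hfl : (⌊y⌋₊ : ℝ) ≤ y := Nat.floor_le hy0.le
    have hpr : (1 : ℝ) < p := by exact_mod_cast hp1.one_lt
    have hlt : ⌊y⌋₊ < p := by
      have h4 : (p : ℝ) ^ c < p := by
        calc (p : ℝ) ^ c < (p : ℝ) ^ (1 : ℝ) := Real.rpow_lt_rpow_of_exponent_lt hpr hc1
          _ = p := Real.rpow_one _
      have h5 : (⌊y⌋₊ : ℝ) < p := by linarith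
      exact_mod_cast h5
    refine ⟨⌊y⌋₊, ?_, by linarith, K, iF, iN, hK, ext χ, isCl_ext χ,
      nonTriv2_ext (hODD p K hp1 hK) hχ, ?_⟩
    · have h4 : y < ⌊y⌋₊ + 1 := Nat.lt_floor_add_one y
      have h5 : (Real.log p) ^ (A + 1) = (Real.log p) ^ A * Real.log p := by
        rw [Real.rpow_add hl0, Real.rpow_one]
      have h6 : 1 ≤ (Real.log p) ^ A := Real.one_le_rpow hl1 (by linarith)
      rw [h5] at hy1
      nlinarith
    · have h4 := num hη hη1 (y := y) (by linarith)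
      rw [sum_Sm χ P hy0.le] at hy3
      have h5 := gg_diff hK.deg χ P hp1 hlt
      linarith
  have h1 : S ⊆ (Set.Iio p₀) ∪ {p ∈ S | Bad P A η c p} := by
    intro p hp
    by_cases h2 : p₀ ≤ p
    · exact Or.inr ⟨hp, key p hp h2⟩
    · exact Or.inl (not_le.mp h2)
  have hfin2 : {p ∈ S | Bad P A η c p}.Finite := hSfin.subset fun p hp => hp.1
  have h2 : S.ncard ≤ p₀ + hfin2.toFinset.card := by
    calc S.ncard ≤ ((Set.Iio p₀) ∪ {p ∈ S | Bad P A η c p}).ncard :=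
          Set.ncard_le_ncard h1 ((Set.finite_Iio p₀).union hfin2)
      _ ≤ (Set.Iio p₀).ncard + {p ∈ S | Bad P A η c p}.ncard := Set.ncard_union_le _ _
      _ = p₀ + hfin2.toFinset.card := by
          rw [Set.ncard_eq_toFinset_card _ hfin2]
          congr 1
          rw [← Nat.card_coe_set_eq]
          simp
  have h3 := h P x hx hfin2.toFinset (by
    intro p hp
    rw [Set.Finite.mem_toFinset] at hp
    exact ⟨hp.1.1, hp.1.2.1, hp.2⟩)
  have hx1 : 1 ≤ (x : ℝ) ^ δ := Real.one_le_rpow (by exact_mod_cast hx) hδ.le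
  calc (S.ncard : ℝ) ≤ ((p₀ + hfin2.toFinset.card : ℕ) : ℝ) := by exact_mod_cast h2
    _ = p₀ + (hfin2.toFinset.card : ℝ) := by push_cast; rfl
    _ ≤ p₀ * (x : ℝ) ^ δ + C * (x : ℝ) ^ δ := by
        have : (p₀ : ℝ) ≤ p₀ * (x : ℝ) ^ δ := le_mul_of_one_le_right (Nat.cast_nonneg _) hx1
        linarith
    _ = _ := by ring

end Pool.Agent.J4H57.GP
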