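import Pool.Agent.J4H57.GP.Ps2

/-!
# Project GP2 (MP_d0fd9b_nt), LS2: the large sieve for high powers of sums over primes
-/

set_option autoImplicit false

open Complex

namespace Pool.Agent.J4H57.GP

open Pool.Agent.J4H78.GP
open Pool.Agent.J4H19.GP (herm_one t_PSD)

/-! ## The numbers `∏ q ^ κ q` -/

/-- the number with the exponents `κ` -/
def nn (Q : Finset ℕ) (κ : ℕ → ℕ) : ℕ := ∏ q ∈ Q, q ^ κ q

theorem nn_ne {Q : Finset ℕ} (hQ : ∀ q ∈ Q, q.Prime) (κ : ℕ → ℕ) : nn Q κ ≠ 0 := by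
  unfold nn
  rw [Finset.prod_ne_zero_iff]
  exact fun q hq => pow_ne_zero _ (hQ q hq).ne_zero

theorem nn_fact {Q : Finset ℕ} (hQ : ∀ q ∈ Q, q.Prime) {κ : ℕ → ℕ} {q : ℕ} (hq : q ∈ Q) :
    (nn Q κ).factorization q = κ q := by
  classical
  unfold nn
  rw [Nat.factorization_prod (fun x hx => pow_ne_zero _ (hQ x hx).ne_zero), Finsupp.finsetSum_apply]
  rw [Finset.sum_eq_single_of_mem q hq]
  · rw [(hQ q hq).factorization_pow, Finsupp.single_eq_same]
  · intro x hx hne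
    rw [(hQ x hx).factorization_pow, Finsupp.single_eq_of_ne hne.symm]

theorem nn_primes {Q : Finset ℕ} (hQ : ∀ q ∈ Q, q.Prime) (κ : ℕ → ℕ) :
    (nn Q κ).primeFactors ⊆ Q := by
  intro p hp
  have hpp := Nat.prime_of_mem_primeFactors hp
  have hpd := Nat.dvd_of_mem_primeFactors hp
  unfold nn at hpd
  obtain ⟨q, hq, h1⟩ := (hpp.prime.dvd_finsetProd_iff _).mp hpd
  have h2 := hpp.dvd_of_dvd_pow h1
  rw [(Nat.prime_dvd_prime_iff_eq hpp (hQ q hq)).mp h2]
  exact hq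

theorem nn_inj {Q : Finset ℕ} (hQ : ∀ q ∈ Q, q.Prime) {k : ℕ} :
    Set.InjOn (nn Q) (Finset.piAntidiag Q k : Set (ℕ → ℕ)) := by
  intro κ hκ κ' hκ' h
  rw [Finset.mem_coe, Finset.mem_piAntidiag] at hκ hκ'
  funext q
  by_cases hq : q ∈ Q
  · rw [← nn_fact hQ (κ := κ) hq, ← nn_fact hQ (κ := κ') hq, h]
  · have h1 : κ q = 0 := by
      by_contra h0
      exact hq (hκ.2 q h0)
    have h2 : κ' q = 0 := by
      by_contra h0
      exact hq (hκ'.2 q h0)
    rw [h1, h2]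

/-- `nn Q κ` is a product of `k` primes of `Q` -/
theorem nn_prod {Q : Finset ℕ} {κ : ℕ → ℕ} {k : ℕ} (h : ∑ q ∈ Q, κ q = k) :
    ∃ f : Fin k → ℕ, (∀ j, f j ∈ Q) ∧ ∏ j, f j = nn Q κ := by
  classical
  let m : Multiset ℕ := ∑ q ∈ Q, Multiset.replicate (κ q) q
  have hc : Multiset.card m = k := by
    simp only [m]
    rw [Multiset.card_sum]
    simp [h]
  have hmem : ∀ x ∈ m, x ∈ Q := by
    intro x hx
    simp only [m] at hx
    rw [Multiset.mem_sum] at hx
    obtain ⟨q, hq, h2⟩ := hx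
    rw [Multiset.eq_of_mem_replicate h2]
    exact hq
  have hprod : m.prod = nn Q κ := by
    simp only [m]
    unfold nn
    rw [Multiset.prod_sum]
    refine Finset.prod_congr rfl fun q _ => ?_
    rw [Multiset.prod_replicate]
  have hl : m.toList.length = k := by rw [Multiset.length_toList, hc]
  refine ⟨fun j => m.toList.get (j.cast hl.symm), fun j => ?_, ?_⟩
  · apply hmem
    rw [← Multiset.mem_toList]
    exact List.get_mem _ _
  · rw [← hprod, ← Multiset.prod_toList]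
    subst hl
    simp only [Fin.cast_eq_self]
    rw [← List.prod_ofFn, List.ofFn_get]

/-- the products at `nn Q κ` -/
theorem bb_nn (G : ℕ → ℂ) {Q : Finset ℕ} (hQ : ∀ q ∈ Q, q.Prime) {κ : ℕ → ℕ} {k : ℕ}
    (h : ∑ q ∈ Q, κ q = k) :
    (k.factorial : ℂ) * bb G (nn Q κ) = (Nat.multinomial Q κ : ℂ) * ∏ q ∈ Q, G q ^ κ q := by
  rw [bb_eq G (nn_primes hQ κ)]
  have h1 : ∏ q ∈ Q, G q ^ (nn Q κ).factorization q / (((nn Q κ).factorization q).factorial : ℂ) =
      ∏ q ∈ Q, G q ^ κ q / ((κ q).factorial : ℂ) := by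
    refine Finset.prod_congr rfl fun q hq => ?_
    rw [nn_fact hQ hq]
  rw [h1, Finset.prod_div_distrib, ← h, ← Nat.multinomial_spec Q κ, Nat.cast_mul, Nat.cast_prod]
  have h2 : ∏ q ∈ Q, ((κ q).factorial : ℂ) ≠ 0 := by
    rw [Finset.prod_ne_zero_iff]
    exact fun q _ => by exact_mod_cast (κ q).factorial_ne_zero
  field_simp

/-- **GP2-LS2** -/
theorem t_LS2 : S_LS2 := by
  classical
  intro ι _ g a ha w hw hsum Δ hΔ hrow hcol Q k w₀ hw₀ hQ hwQ
  set P : ι → ℂ := fun i => ∑ q ∈ Q, g i q with hP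
  set T : ι → ℂ := fun i => P i ^ k with hT
  set u : ι → ℂ := fun i => (starRingEnd ℂ) (T i) with hu
  set N : ℝ := ∑ i, ‖T i‖ ^ 2 with hN
  set K : Finset (ℕ → ℕ) := Finset.piAntidiag Q k with hK
  set M : (ℕ → ℕ) → ℝ := fun κ => (Nat.multinomial Q κ : ℝ) with hM
  set R : ι → (ℕ → ℕ) → ℂ := fun i κ => ∏ q ∈ Q, g i q ^ κ q with hR
  set V : (ℕ → ℕ) → ℂ := fun κ => ∑ i, u i * R i κ with hV
  have hN0 : 0 ≤ N := Finset.sum_nonneg fun i _ => by positivity
  have hM0 : ∀ κ, 0 ≤ M κ := fun κ => Nat.cast_nonneg _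
  have hN' : ∑ i, ‖∑ q ∈ Q, g i q‖ ^ (2 * k) = N := by
    refine Finset.sum_congr rfl fun i _ => ?_
    rw [hT, norm_pow, ← pow_mul, mul_comm k 2]
  rw [hN']
  have hT' : ∀ i, T i = ∑ κ ∈ K, (M κ : ℂ) * R i κ := by
    intro i
    have h := Finset.sum_pow_eq_sum_piAntidiag Q (fun q => g i q) k
    rw [hT, hP]
    simp only [h, hM, hR, hK]
    push_cast
    rfl
  have hMs : ∑ κ ∈ K, M κ = (Q.card : ℝ) ^ k := by
    have h := Finset.sum_pow_eq_sum_piAntidiag Q (fun _ => (1 : ℝ)) k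
    simp only [Finset.sum_const, nsmul_eq_mul, mul_one, one_pow, Finset.prod_const_one] at h
    rw [h]
  -- (1) N = ∑ M V
  have h1 : (N : ℂ) = ∑ κ ∈ K, (M κ : ℂ) * V κ := by
    have e1 : (N : ℂ) = ∑ i, u i * T i := by
      rw [hN]
      push_cast
      refine Finset.sum_congr rfl fun i _ => ?_
      have : u i * T i = ((‖T i‖ ^ 2 : ℝ) : ℂ) := by
        rw [hu, mul_comm, Complex.mul_conj, Complex.normSq_eq_norm_sq]
      rw [this]
      push_cast
      rfl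
    rw [e1]
    simp_rw [hT', hV, Finset.mul_sum]
    rw [Finset.sum_comm]
    refine Finset.sum_congr rfl fun κ _ => Finset.sum_congr rfl fun i _ => ?_
    ring
  have h2 : N ^ 2 ≤ (Q.card : ℝ) ^ k * ∑ κ ∈ K, M κ * ‖V κ‖ ^ 2 := by
    have h3 : N ≤ ∑ κ ∈ K, M κ * ‖V κ‖ := by
      have : ‖(N : ℂ)‖ ≤ ∑ κ ∈ K, M κ * ‖V κ‖ := by
        rw [h1]
        refine (norm_sum_le _ _).trans (Finset.sum_le_sum fun κ _ => ?_)
        rw [norm_mul, Complex.norm_real, Real.norm_of_nonneg (hM0 κ)]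
      rwa [Complex.norm_real, Real.norm_of_nonneg hN0] at this
    calc N ^ 2 ≤ (∑ κ ∈ K, M κ * ‖V κ‖) ^ 2 := pow_le_pow_left₀ hN0 h3 2
      _ ≤ (∑ κ ∈ K, M κ) * ∑ κ ∈ K, M κ * ‖V κ‖ ^ 2 := by
          refine Finset.sum_sq_le_sum_mul_sum_of_sq_eq_mul _ (fun κ _ => hM0 κ)
            (fun κ _ => mul_nonneg (hM0 κ) (by positivity)) (fun κ _ => ?_)
          ring
      _ = _ := by rw [hMs]
  -- (3) the terms
  have h3 : ∀ κ ∈ K, M κ * ‖V κ‖ ^ 2 = (k.factorial : ℝ) *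
      Hm u (fun i j => bb (fun d => g i d * (starRingEnd ℂ) (g j d)) (nn Q κ)) := by
    intro κ hκ
    rw [hK, Finset.mem_piAntidiag] at hκ
    have e := herm_one (fun i => u i * R i κ)
    have e2 : ‖V κ‖ ^ 2 = Hm u (fun i j => ∏ q ∈ Q, (g i q * (starRingEnd ℂ) (g j q)) ^ κ q) := by
      have e3 : (∑ i, ∑ j, u i * (starRingEnd ℂ) (u j) *
          ∏ q ∈ Q, (g i q * (starRingEnd ℂ) (g j q)) ^ κ q) =
          ∑ i, ∑ j, (u i * R i κ) * (starRingEnd ℂ) (u j * R j κ) := by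
        refine Finset.sum_congr rfl fun i _ => Finset.sum_congr rfl fun j _ => ?_
        simp only [hR, map_mul, map_prod, map_pow, mul_pow, Finset.prod_mul_distrib]
        ring
      unfold Hm
      rw [e3, e, Complex.ofReal_re]
    rw [e2, ← Hm_smul, ← Hm_smul]
    congr 1
    funext i j
    have e4 := bb_nn (fun d => g i d * (starRingEnd ℂ) (g j d)) hQ hκ.1
    rw [mul_comm, mul_comm _ (((k.factorial : ℝ)) : ℂ)]
    simp only [hM]
    push_cast
    exact e4.symm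
  have hPS : ∀ n, 1 ≤ n → Hm u (fun i j => bb (fun d => g i d * (starRingEnd ℂ) (g j d)) n) ≤
      Hm u (fun i j => a i j n) := by
    intro n hn
    have h4 := t_PS2 ι g a ha u n hn
    have h5 := Hm_sub u (fun i j => a i j n)
      (fun i j => bb (fun d => g i d * (starRingEnd ℂ) (g j d)) n)
    have h6 : 0 ≤ Hm u (fun i j => a i j n - bb (fun d => g i d * (starRingEnd ℂ) (g j d)) n) := h4
    rw [h5] at h6
    linarith
  have hPSD : ∀ n, 0 ≤ Hm u (fun i j => a i j n) := fun n => t_PSD ι g a ha u n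
  have hs : Summable fun n => w n * Hm u (fun i j => a i j n) := by
    have : Summable fun n => ∑ i, ∑ j, u i * (starRingEnd ℂ) (u j) * (((w n : ℝ) : ℂ) * a i j n) :=
      summable_sum fun i _ => summable_sum fun j _ => (hsum i j).mul_left _
    have h4 := (Complex.hasSum_re this.hasSum).summable
    refine h4.congr fun n => ?_
    unfold Hm
    rw [← Complex.re_ofReal_mul, Finset.mul_sum]
    congr 1
    refine Finset.sum_congr rfl fun i _ => ?_
    rw [Finset.mul_sum]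
    refine Finset.sum_congr rfl fun j _ => ?_
    ring
  have h5 : w₀ * ∑ κ ∈ K, M κ * ‖V κ‖ ^ 2 ≤
      (k.factorial : ℝ) * ∑' n, w n * Hm u (fun i j => a i j n) := by
    calc w₀ * ∑ κ ∈ K, M κ * ‖V κ‖ ^ 2 = ∑ κ ∈ K, w₀ * (M κ * ‖V κ‖ ^ 2) := by
          rw [Finset.mul_sum]
      _ ≤ ∑ κ ∈ K, (k.factorial : ℝ) * (w (nn Q κ) * Hm u (fun i j => a i j (nn Q κ))) := by
          refine Finset.sum_le_sum fun κ hκ => ?_
          rw [h3 κ hκ]
          have hκ' := hκ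
          rw [hK, Finset.mem_piAntidiag] at hκ'
          obtain ⟨f, hf1, hf2⟩ := nn_prod hκ'.1
          have h6 : w₀ ≤ w (nn Q κ) := by
            rw [← hf2]
            exact hwQ f hf1
          have h7 := hPS (nn Q κ) (Nat.pos_of_ne_zero (nn_ne hQ κ))
          have h8 := hPSD (nn Q κ)
          calc w₀ * ((k.factorial : ℝ) *
                Hm u (fun i j => bb (fun d => g i d * (starRingEnd ℂ) (g j d)) (nn Q κ)))
              ≤ w₀ * ((k.factorial : ℝ) * Hm u (fun i j => a i j (nn Q κ))) := by gcongr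
            _ ≤ w (nn Q κ) * ((k.factorial : ℝ) * Hm u (fun i j => a i j (nn Q κ))) := by gcongr
            _ = _ := by ring
      _ = (k.factorial : ℝ) * ∑ n ∈ K.image (nn Q), w n * Hm u (fun i j => a i j n) := by
          rw [← Finset.mul_sum, Finset.sum_image (nn_inj hQ)]
      _ ≤ _ := by
          refine mul_le_mul_of_nonneg_left ?_ (Nat.cast_nonneg _)
          exact hs.sum_le_tsum _ fun n _ => mul_nonneg (hw n) (hPSD n)
  have h6 : ∑' n, w n * Hm u (fun i j => a i j n) ≤ Δ * N := by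
    have e1 : ∑' n, w n * Hm u (fun i j => a i j n) =
        (∑ i, ∑ j, u i * (starRingEnd ℂ) (u j) * ∑' n, (((w n : ℝ) : ℂ) * a i j n)).re := by
      have hh : HasSum (fun n => ∑ i, ∑ j, u i * (starRingEnd ℂ) (u j) * (((w n : ℝ) : ℂ) * a i j n))
          (∑ i, ∑ j, u i * (starRingEnd ℂ) (u j) * ∑' n, (((w n : ℝ) : ℂ) * a i j n)) :=
        hasSum_sum fun i _ => hasSum_sum fun j _ => (hsum i j).hasSum.mul_left _
      have h4 := (Complex.hasSum_re hh).tsum_eq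
      rw [← h4]
      refine tsum_congr fun n => ?_
      unfold Hm
      rw [← Complex.re_ofReal_mul, Finset.mul_sum]
      congr 1
      refine Finset.sum_congr rfl fun i _ => ?_
      rw [Finset.mul_sum]
      refine Finset.sum_congr rfl fun j _ => ?_
      ring
    rw [e1]
    have hun : ∀ i, ‖u i‖ = ‖T i‖ := fun i => by rw [hu]; exact Complex.norm_conj _
    set A : ι → ι → ℝ := fun i j => ‖∑' n, (((w n : ℝ) : ℂ) * a i j n)‖ with hA
    calc (∑ i, ∑ j, u i * (starRingEnd ℂ) (u j) * ∑' n, (((w n : ℝ) : ℂ) * a i j n)).re ≤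
        ‖∑ i, ∑ j, u i * (starRingEnd ℂ) (u j) * ∑' n, (((w n : ℝ) : ℂ) * a i j n)‖ :=
          Complex.re_le_norm _
      _ ≤ ∑ i, ∑ j, ‖T i‖ * ‖T j‖ * A i j := by
          refine (norm_sum_le _ _).trans (Finset.sum_le_sum fun i _ => ?_)
          refine (norm_sum_le _ _).trans (Finset.sum_le_sum fun j _ => ?_)
          have h7 : ‖(starRingEnd ℂ) (u j)‖ = ‖T j‖ := (Complex.norm_conj (u j)).trans (hun j)
          rw [norm_mul, norm_mul, h7, hun]
      _ ≤ ∑ i, ∑ j, ((‖T i‖ ^ 2 / 2) * A i j + (‖T j‖ ^ 2 / 2) * A i j) := by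
          refine Finset.sum_le_sum fun i _ => Finset.sum_le_sum fun j _ => ?_
          have h7 : ‖T i‖ * ‖T j‖ ≤ ‖T i‖ ^ 2 / 2 + ‖T j‖ ^ 2 / 2 := by
            nlinarith [sq_nonneg (‖T i‖ - ‖T j‖)]
          have h8 : 0 ≤ A i j := norm_nonneg _
          nlinarith
      _ = (∑ i, (‖T i‖ ^ 2 / 2) * ∑ j, A i j) + ∑ j, (‖T j‖ ^ 2 / 2) * ∑ i, A i j := by
          simp_rw [Finset.sum_add_distrib, Finset.mul_sum]
          congr 1
          rw [Finset.sum_comm]
      _ ≤ (∑ i, (‖T i‖ ^ 2 / 2) * Δ) + ∑ j, (‖T j‖ ^ 2 / 2) * Δ := by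
          refine add_le_add (Finset.sum_le_sum fun i _ => ?_) (Finset.sum_le_sum fun j _ => ?_)
          · exact mul_le_mul_of_nonneg_left (hrow i) (by positivity)
          · exact mul_le_mul_of_nonneg_left (hcol j) (by positivity)
      _ = Δ * N := by
          rw [← Finset.sum_mul, ← Finset.sum_div]
          ring
  have h9 : w₀ * N ^ 2 ≤ (Q.card : ℝ) ^ k * ((k.factorial : ℝ) * (Δ * N)) := by
    calc w₀ * N ^ 2 ≤ w₀ * ((Q.card : ℝ) ^ k * ∑ κ ∈ K, M κ * ‖V κ‖ ^ 2) :=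
          mul_le_mul_of_nonneg_left h2 hw₀.le
      _ = (Q.card : ℝ) ^ k * (w₀ * ∑ κ ∈ K, M κ * ‖V κ‖ ^ 2) := by ring
      _ ≤ (Q.card : ℝ) ^ k * ((k.factorial : ℝ) * (Δ * N)) := by
          refine mul_le_mul_of_nonneg_left (h5.trans ?_) (by positivity)
          exact mul_le_mul_of_nonneg_left h6 (Nat.cast_nonneg _)
  rcases hN0.eq_or_lt with h0 | h0
  · rw [← h0, mul_zero]
    positivity
  · have : N * (w₀ * N) ≤ N * (Δ * ((k.factorial : ℝ) * (Q.card : ℝ) ^ k)) := by nlinarith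
    exact le_of_mul_le_mul_left this h0

end Pool.Agent.J4H57.GP
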