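import Pool.Agent.J4H78.GP.Stm2
import Pool.Agent.J4H19.GP.Sieve

/-!
# Project GP2 (MP_d0fd9b_nt), PS2: comparison of the coefficients with the multinomial products
-/

set_option autoImplicit false

open Complex

namespace Pool.Agent.J4H57.GP

open Pool.Agent.J4H78.GP
open Pool.Agent.J4H19.GP (sum_erase log_ne div_lt_of t_PSD herm_one)

/-- the product of the `G q ^ v / v!` -/
noncomputable def bb (G : ℕ → ℂ) (n : ℕ) : ℂ :=
  ∏ q ∈ n.primeFactors, G q ^ (n.factorization q) / ((n.factorization q).factorial : ℂ)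

theorem bb_eq (G : ℕ → ℂ) {n : ℕ} {S : Finset ℕ} (h : n.primeFactors ⊆ S) :
    bb G n = ∏ q ∈ S, G q ^ (n.factorization q) / ((n.factorization q).factorial : ℂ) := by
  unfold bb
  refine Finset.prod_subset h fun q _ hq => ?_
  have h1 : n.factorization q = 0 := by
    rw [← Finsupp.notMem_support_iff, Nat.support_factorization]
    exact hq
  rw [h1]
  simp

theorem bb_div (G : ℕ → ℂ) {n q : ℕ} (hn : n ≠ 0) (hq : q ∈ n.primeFactors) :
    G q * bb G (n / q) = (n.factorization q : ℂ) * bb G n := by
  have hqp := Nat.prime_of_mem_primeFactors hq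
  have hqd := Nat.dvd_of_mem_primeFactors hq
  have h1 : (n / q).primeFactors ⊆ n.primeFactors :=
    Nat.primeFactors_mono (Nat.div_dvd_of_dvd hqd) hn
  rw [bb_eq G h1]
  unfold bb
  rw [← Finset.mul_prod_erase _ _ hq, ← Finset.mul_prod_erase n.primeFactors
    (fun q => G q ^ (n.factorization q) / ((n.factorization q).factorial : ℂ)) hq]
  have h2 : ∏ x ∈ n.primeFactors.erase q, G x ^ ((n / q).factorization x) /
      (((n / q).factorization x).factorial : ℂ) =
      ∏ x ∈ n.primeFactors.erase q, G x ^ (n.factorization x) /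
      ((n.factorization x).factorial : ℂ) := by
    refine Finset.prod_congr rfl fun x hx => ?_
    rw [Finset.mem_erase] at hx
    have h3 : (n / q).factorization x = n.factorization x := by
      rw [Nat.factorization_div hqd, Finsupp.tsub_apply, hqp.factorization,
        Finsupp.single_eq_of_ne hx.1, Nat.sub_zero]
    rw [h3]
  rw [h2]
  have h3 : (n / q).factorization q = n.factorization q - 1 := by
    rw [Nat.factorization_div hqd, Finsupp.tsub_apply, hqp.factorization, Finsupp.single_eq_same]
  have h4 : 1 ≤ n.factorization q := (hqp.dvd_iff_one_le_factorization hn).mp hqd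
  obtain ⟨m, hm⟩ := Nat.exists_eq_add_of_le' h4
  rw [h3, hm, Nat.add_sub_cancel, Nat.factorial_succ, Nat.cast_mul]
  have h5 : ((m.factorial : ℕ) : ℂ) ≠ 0 := by exact_mod_cast m.factorial_ne_zero
  have h6 : ((m + 1 : ℕ) : ℂ) ≠ 0 := by exact_mod_cast m.succ_ne_zero
  rw [pow_succ]
  field_simp

/-- the recurrence of the products -/
theorem bb_rec (G : ℕ → ℂ) {n : ℕ} (hn : n ≠ 0) :
    bb G n * (Real.log n : ℂ) = ∑ q ∈ n.primeFactors, (Real.log q : ℂ) * G q * bb G (n / q) := by
  have h1 : (Real.log n : ℂ) = ∑ q ∈ n.primeFactors, (n.factorization q : ℂ) * (Real.log q : ℂ) := by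
    rw [Real.log_nat_eq_sum_factorization]
    unfold Finsupp.sum
    rw [Nat.support_factorization]
    push_cast
    rfl
  rw [h1, Finset.mul_sum]
  refine Finset.sum_congr rfl fun q hq => ?_
  rw [mul_assoc (Real.log q : ℂ), bb_div G hn hq]
  ring

section herm

variable {ι : Type} [Fintype ι]

/-- the hermitian form -/
noncomputable def Hm (u : ι → ℂ) (M : ι → ι → ℂ) : ℝ :=
  (∑ i, ∑ j, u i * (starRingEnd ℂ) (u j) * M i j).re

theorem Hm_sub (u : ι → ℂ) (M N : ι → ι → ℂ) : Hm u (fun i j => M i j - N i j) = Hm u M - Hm u N := by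
  unfold Hm
  rw [← Complex.sub_re, ← Finset.sum_sub_distrib]
  congr 1
  refine Finset.sum_congr rfl fun i _ => ?_
  rw [← Finset.sum_sub_distrib]
  refine Finset.sum_congr rfl fun j _ => ?_
  ring

theorem Hm_smul (u : ι → ℂ) (M : ι → ι → ℂ) (c : ℝ) : Hm u (fun i j => M i j * (c : ℂ)) = c * Hm u M := by
  unfold Hm
  rw [← Complex.re_ofReal_mul, Finset.mul_sum]
  congr 1
  refine Finset.sum_congr rfl fun i _ => ?_
  rw [Finset.mul_sum]
  refine Finset.sum_congr rfl fun j _ => ?_
  ring

theorem Hm_sum (u : ι → ℂ) (s : Finset ℕ) (c : ℕ → ℝ) (g : ι → ℕ → ℂ) (M : ℕ → ι → ι → ℂ) :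
    Hm u (fun i j => ∑ d ∈ s, (c d : ℂ) * (g i d * (starRingEnd ℂ) (g j d)) * M d i j) =
      ∑ d ∈ s, c d * Hm (fun i => u i * g i d) (M d) := by
  unfold Hm
  have h1 : ∀ d, c d * (∑ i, ∑ j, u i * g i d * (starRingEnd ℂ) (u j * g j d) * M d i j).re =
      (∑ i, ∑ j, u i * (starRingEnd ℂ) (u j) *
        ((c d : ℂ) * (g i d * (starRingEnd ℂ) (g j d)) * M d i j)).re := by
    intro d
    rw [← Complex.re_ofReal_mul, Finset.mul_sum]
    congr 1
    refine Finset.sum_congr rfl fun i _ => ?_
    rw [Finset.mul_sum]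
    refine Finset.sum_congr rfl fun j _ => ?_
    rw [map_mul]
    ring
  simp_rw [h1]
  rw [← Complex.re_sum]
  congr 1
  symm
  rw [Finset.sum_comm]
  refine Finset.sum_congr rfl fun i _ => ?_
  rw [Finset.sum_comm]
  refine Finset.sum_congr rfl fun j _ => ?_
  rw [Finset.mul_sum]

theorem Hm_a {g : ι → ℕ → ℂ} {a : ι → ι → ℕ → ℂ}
    (ha : ∀ i j, IsCf (fun d => g i d * (starRingEnd ℂ) (g j d)) (a i j)) (u : ι → ℂ) {n : ℕ}
    (hn : 1 ≤ n) : Real.log n * Hm u (fun i j => a i j n) = ∑ d ∈ n.divisors.erase 1,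
      ArithmeticFunction.vonMangoldt d * Hm (fun i => u i * g i d) (fun i j => a i j (n / d)) := by
  rw [← Hm_smul, ← Hm_sum]
  congr 1
  funext i j
  rw [(ha i j).2.2 n hn, sum_erase _ _ n (by omega)]

theorem Hm_b (g : ι → ℕ → ℂ) (u : ι → ℂ) {n : ℕ} (hn : 1 ≤ n) :
    Real.log n * Hm u (fun i j => bb (fun d => g i d * (starRingEnd ℂ) (g j d)) n) =
      ∑ q ∈ n.primeFactors, Real.log q * Hm (fun i => u i * g i q)
        (fun i j => bb (fun d => g i d * (starRingEnd ℂ) (g j d)) (n / q)) := by
  rw [← Hm_smul, ← Hm_sum u n.primeFactors (fun q => Real.log q) g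
    (fun q i j => bb (fun d => g i d * (starRingEnd ℂ) (g j d)) (n / q))]
  congr 1
  funext i j
  rw [bb_rec _ (by omega)]

end herm

/-- **GP2-PS2** -/
theorem t_PS2 : S_PS2 := by
  intro ι _ g a ha u n hn
  have main : ∀ (n : ℕ), 1 ≤ n → ∀ u : ι → ℂ,
      Hm u (fun i j => bb (fun d => g i d * (starRingEnd ℂ) (g j d)) n) ≤
        Hm u (fun i j => a i j n) := by
    intro n
    induction n using Nat.strong_induction_on with
    | _ n ih =>
      intro hn u
      rcases Nat.lt_or_ge 1 n with h1 | h1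
      · have hlog : 0 < Real.log n := Real.log_pos (by exact_mod_cast h1)
        refine le_of_mul_le_mul_left ?_ hlog
        rw [Hm_a ha u hn, Hm_b g u hn]
        have hsub : n.primeFactors ⊆ n.divisors.erase 1 := by
          intro q hq
          have hqp := Nat.prime_of_mem_primeFactors hq
          rw [Finset.mem_erase, Nat.mem_divisors]
          exact ⟨hqp.one_lt.ne', Nat.dvd_of_mem_primeFactors hq, by omega⟩
        calc _ ≤ ∑ q ∈ n.primeFactors, ArithmeticFunction.vonMangoldt q *
              Hm (fun i => u i * g i q) (fun i j => a i j (n / q)) := by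
              refine Finset.sum_le_sum fun q hq => ?_
              have hqp := Nat.prime_of_mem_primeFactors hq
              rw [ArithmeticFunction.vonMangoldt_apply_prime hqp]
              have h2 := div_lt_of (by omega) (hsub hq)
              exact mul_le_mul_of_nonneg_left (ih (n / q) h2.1 h2.2 _)
                (Real.log_nonneg (by exact_mod_cast hqp.one_lt.le))
          _ ≤ _ := by
              refine Finset.sum_le_sum_of_subset_of_nonneg hsub fun d _ _ => ?_
              exact mul_nonneg ArithmeticFunction.vonMangoldt_nonneg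
                (t_PSD ι g a ha _ (n / d))
      · have h2 : n = 1 := by omega
        subst h2
        refine le_of_eq ?_
        congr 1
        funext i j
        rw [(ha i j).2.1]
        unfold bb
        simp
  have h1 := main n hn u
  have h2 := Hm_sub u (fun i j => a i j n)
    (fun i j => bb (fun d => g i d * (starRingEnd ℂ) (g j d)) n)
  have h3 : 0 ≤ Hm u (fun i j => a i j n - bb (fun d => g i d * (starRingEnd ℂ) (g j d)) n) := by
    rw [h2]
    linarith
  exact h3

end Pool.Agent.J4H57.GP
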