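import Pool.Agent.J4H57.GP.T

/-!
# Project GP (MP_d0fd9b_nt), RES: sums over the ideals prime to a number
-/

set_option autoImplicit false

open NumberField Complex Filter Topology MeasureTheory

namespace Pool.Agent.J4H57.GP

open Pool.Agent.J4H78.GP

variable {L : Type} [Field L] [NumberField L]

open Classical in
/-- the restriction of `η` to the ideals prime to `Q` -/
noncomputable def fQ (η : Ideal (𝓞 L) →*₀ ℂ) (Q : Finset (Ideal (𝓞 L))) (𝔞 : Ideal (𝓞 L)) : ℂ :=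
  if ∀ 𝔮 ∈ Q, ¬ 𝔮 ∣ 𝔞 then η 𝔞 else 0

theorem norm_fQ {η : Ideal (𝓞 L) →*₀ ℂ} (hη : IsCl L η) (Q : Finset (Ideal (𝓞 L)))
    (𝔞 : Ideal (𝓞 L)) : ‖fQ η Q 𝔞‖ ≤ ‖triv L 𝔞‖ := by
  unfold fQ
  split_ifs
  · by_cases h : 𝔞 = ⊥
    · have : η ⊥ = 0 := map_zero _
      rw [h, this, norm_zero]
      exact norm_nonneg _
    · rw [norm_eta hη h, triv_of_ne h, norm_one]
  · rw [norm_zero]
    exact norm_nonneg _

theorem sum_fQ (hW : S_W) (hL : Module.finrank ℚ L = 4) {g : Ideal (𝓞 L) → ℂ}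
    (hg : ∀ 𝔞, ‖g 𝔞‖ ≤ ‖triv L 𝔞‖) {X : ℝ} (hX : 0 < X) :
    Summable fun 𝔞 : Ideal (𝓞 L) => g 𝔞 * ((W ((Ideal.absNorm 𝔞 : ℝ) / X) : ℝ) : ℂ) := by
  obtain ⟨C₂, hC₂, hZ⟩ := t_ZB
  obtain ⟨C₁, hC₁, hW2⟩ := hW.2.1 2 two_pos
  obtain ⟨hZs, hZt⟩ := hZ L hL
  obtain ⟨hs1, -⟩ := sum_W hW hW2 hC₁ hZs hZt (inv_pos.mpr hX)
  refine Summable.of_norm_bounded hs1 fun 𝔞 => ?_
  rw [norm_mul, norm_W hW, div_eq_mul_inv]
  exact mul_le_mul_of_nonneg_right (hg 𝔞) (hW.1 _)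

/-- the sum over the ideals prime to `Q` -/
noncomputable def TQ (η : Ideal (𝓞 L) →*₀ ℂ) (Q : Finset (Ideal (𝓞 L))) (X : ℝ) : ℂ :=
  ∑' 𝔞 : Ideal (𝓞 L), fQ η Q 𝔞 * ((W ((Ideal.absNorm 𝔞 : ℝ) / X) : ℝ) : ℂ)

theorem fQ_mul {η : Ideal (𝓞 L) →*₀ ℂ} {Q : Finset (Ideal (𝓞 L))} {𝔮 : Ideal (𝓞 L)}
    (hq : Prime 𝔮) (hQ : ∀ 𝔭 ∈ Q, Prime 𝔭) (hn : 𝔮 ∉ Q) (𝔠 : Ideal (𝓞 L)) :
    fQ η Q (𝔮 * 𝔠) = η 𝔮 * fQ η Q 𝔠 := by
  have h1 : ∀ 𝔭 ∈ Q, (𝔭 ∣ 𝔮 * 𝔠 ↔ 𝔭 ∣ 𝔠) := by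
    intro 𝔭 hp
    constructor
    · intro h
      rcases (hQ 𝔭 hp).dvd_or_dvd h with h2 | h2
      · exfalso
        have h3 : Associated 𝔭 𝔮 := (hQ 𝔭 hp).associated_of_dvd hq h2
        rw [associated_iff_eq] at h3
        exact hn (h3 ▸ hp)
      · exact h2
    · exact fun h => dvd_mul_of_dvd_right h 𝔮
  unfold fQ
  by_cases h2 : ∀ 𝔭 ∈ Q, ¬ 𝔭 ∣ 𝔠
  · rw [if_pos h2, if_pos (fun 𝔭 hp h => h2 𝔭 hp ((h1 𝔭 hp).mp h)), map_mul]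
  · rw [if_neg h2, if_neg (fun h => h2 fun 𝔭 hp h3 => h 𝔭 hp ((h1 𝔭 hp).mpr h3)), mul_zero]

open Classical in
theorem TQ_insert (hW : S_W) (hL : Module.finrank ℚ L = 4) {η : Ideal (𝓞 L) →*₀ ℂ} (hη : IsCl L η)
    {Q : Finset (Ideal (𝓞 L))} {𝔮 : Ideal (𝓞 L)}
    (hq : Prime 𝔮) (hQ : ∀ 𝔭 ∈ Q, Prime 𝔭) (hn : 𝔮 ∉ Q) {X : ℝ} (hX : 0 < X) :
    TQ η (insert 𝔮 Q) X = TQ η Q X - η 𝔮 * TQ η Q (X / Ideal.absNorm 𝔮) := by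
  have hN := absNorm_pos' hq.ne_zero
  have h1 : ∀ 𝔞, fQ η (insert 𝔮 Q) 𝔞 = fQ η Q 𝔞 - (if 𝔮 ∣ 𝔞 then fQ η Q 𝔞 else 0) := by
    intro 𝔞
    by_cases h2 : 𝔮 ∣ 𝔞
    · rw [if_pos h2, sub_self]
      unfold fQ
      rw [if_neg]
      intro h
      exact h 𝔮 (Finset.mem_insert_self _ _) h2
    · rw [if_neg h2, sub_zero]
      unfold fQ
      have h3 : (∀ 𝔭 ∈ insert 𝔮 Q, ¬ 𝔭 ∣ 𝔞) ↔ ∀ 𝔭 ∈ Q, ¬ 𝔭 ∣ 𝔞 := by
        rw [Finset.forall_mem_insert]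
        exact ⟨fun h => h.2, fun h => ⟨h2, h⟩⟩
      by_cases h4 : ∀ 𝔭 ∈ Q, ¬ 𝔭 ∣ 𝔞
      · rw [if_pos h4, if_pos (h3.mpr h4)]
      · rw [if_neg h4, if_neg (fun h => h4 (h3.mp h))]
  have h2 : ∀ 𝔞, ‖(if 𝔮 ∣ 𝔞 then fQ η Q 𝔞 else 0)‖ ≤ ‖triv L 𝔞‖ := by
    intro 𝔞
    split_ifs
    · exact norm_fQ hη Q 𝔞
    · rw [norm_zero]
      exact norm_nonneg _
  have h3 := sum_fQ hW hL (norm_fQ hη Q) hX
  have h4 := sum_fQ hW hL h2 hX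
  unfold TQ
  simp_rw [h1, sub_mul]
  rw [h3.tsum_sub h4]
  congr 1
  have hi : Function.Injective fun 𝔠 : Ideal (𝓞 L) => 𝔮 * 𝔠 :=
    fun a b h => mul_left_cancel₀ hq.ne_zero h
  rw [← hi.tsum_eq, ← tsum_mul_left]
  · refine tsum_congr fun 𝔠 => ?_
    rw [if_pos (dvd_mul_right 𝔮 𝔠), fQ_mul hq hQ hn, map_mul, Nat.cast_mul]
    have h5 : (Ideal.absNorm 𝔮 : ℝ) * Ideal.absNorm 𝔠 / X =
        Ideal.absNorm 𝔠 / (X / Ideal.absNorm 𝔮) := by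
      field_simp
    rw [h5]
    ring
  · intro 𝔞 h𝔞
    rw [Function.mem_support] at h𝔞
    by_cases h5 : 𝔮 ∣ 𝔞
    · obtain ⟨𝔠, h6⟩ := h5
      exact ⟨𝔠, h6.symm⟩
    · exfalso
      apply h𝔞
      rw [if_neg h5, zero_mul]

theorem TQ_le (hW : S_W) (hL : Module.finrank ℚ L = 4) {η : Ideal (𝓞 L) →*₀ ℂ} (hη : IsCl L η)
    {D : ℝ} (hT : ∀ X : ℝ, 0 < X →
      ‖∑' 𝔞 : Ideal (𝓞 L), η 𝔞 * ((W ((Ideal.absNorm 𝔞 : ℝ) / X) : ℝ) : ℂ)‖ ≤ D / X)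
    (Q : Finset (Ideal (𝓞 L))) (hQ : ∀ 𝔭 ∈ Q, Prime 𝔭) : ∀ X : ℝ, 0 < X →
      ‖TQ η Q X‖ ≤ D * (∏ 𝔮 ∈ Q, (1 + (Ideal.absNorm 𝔮 : ℝ))) / X := by
  classical
  induction Q using Finset.induction_on with
  | empty =>
    intro X hX
    rw [Finset.prod_empty, mul_one]
    refine le_trans (le_of_eq ?_) (hT X hX)
    have h1 : ∀ 𝔞, fQ η ∅ 𝔞 = η 𝔞 := by
      intro 𝔞
      unfold fQ
      exact if_pos (by simp)
    unfold TQ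
    simp_rw [h1]
  | insert 𝔮 Q hn ih =>
    intro X hX
    have hq : Prime 𝔮 := hQ 𝔮 (Finset.mem_insert_self _ _)
    have hQ' : ∀ 𝔭 ∈ Q, Prime 𝔭 := fun 𝔭 h => hQ 𝔭 (Finset.mem_insert_of_mem h)
    have hN := absNorm_pos' hq.ne_zero
    rw [TQ_insert hW hL hη hq hQ' hn hX, Finset.prod_insert hn]
    have h1 := ih hQ' X hX
    have h2 := ih hQ' (X / Ideal.absNorm 𝔮) (by positivity)
    calc ‖TQ η Q X - η 𝔮 * TQ η Q (X / Ideal.absNorm 𝔮)‖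
        ≤ ‖TQ η Q X‖ + ‖η 𝔮 * TQ η Q (X / Ideal.absNorm 𝔮)‖ := norm_sub_le _ _
      _ = ‖TQ η Q X‖ + ‖TQ η Q (X / Ideal.absNorm 𝔮)‖ := by
          rw [norm_mul, norm_eta hη hq.ne_zero, one_mul]
      _ ≤ D * (∏ 𝔮 ∈ Q, (1 + (Ideal.absNorm 𝔮 : ℝ))) / X +
          D * (∏ 𝔮 ∈ Q, (1 + (Ideal.absNorm 𝔮 : ℝ))) / (X / Ideal.absNorm 𝔮) := add_le_add h1 h2
      _ = _ := by
          field_simp

/-! ## The prime ideals which divide `M` -/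

theorem norm_nat (hL : Module.finrank ℚ L = 4) (M : ℕ) :
    Ideal.absNorm (Ideal.span {(M : 𝓞 L)}) = M ^ 4 := by
  rw [Ideal.absNorm_span_singleton]
  have h1 : ((M : ℕ) : 𝓞 L) = algebraMap ℤ (𝓞 L) M := by simp
  rw [h1, Algebra.norm_algebraMap, RingOfIntegers.rank, hL, Int.natAbs_pow, Int.natAbs_natCast]

theorem coprime_of {𝔞 : Ideal (𝓞 L)} (h0 : 𝔞 ≠ ⊥) {M : ℕ}
    (h : 𝔞 ⊔ Ideal.span {(M : 𝓞 L)} = ⊤) : (Ideal.absNorm 𝔞).Coprime M := by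
  by_contra hc
  obtain ⟨p, hp, h1, h2⟩ := Nat.Prime.not_coprime_iff_dvd.mp hc
  have : Fact p.Prime := ⟨hp⟩
  have : Finite (𝓞 L ⧸ 𝔞) := Ideal.finiteQuotientOfFreeOfNeBot 𝔞 h0
  rw [Ideal.absNorm_apply, Submodule.cardQuot_apply] at h1
  obtain ⟨x, hx⟩ := exists_prime_addOrderOf_dvd_card' (G := 𝓞 L ⧸ 𝔞) p h1
  have h3 : (p : ℕ) • x = 0 := by
    rw [← hx]
    exact addOrderOf_nsmul_eq_zero x
  have h4 : (M : ℕ) • x = 0 := by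
    obtain ⟨m, rfl⟩ := h2
    rw [mul_comm, mul_nsmul', h3, nsmul_zero]
  have h5 : x = 0 := by
    obtain ⟨y, rfl⟩ := Ideal.Quotient.mk_surjective x
    have h6 : (1 : 𝓞 L) ∈ 𝔞 ⊔ Ideal.span {(M : 𝓞 L)} := by
      rw [h]
      trivial
    obtain ⟨a, ha, b, hb, hab⟩ := Submodule.mem_sup.mp h6
    obtain ⟨c, rfl⟩ := Ideal.mem_span_singleton'.mp hb
    have h7 : y = y * a + c * ((M : 𝓞 L) * y) := by
      calc y = y * 1 := (mul_one y).symm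
        _ = y * (a + c * M) := by rw [hab]
        _ = _ := by ring
    have h8 : (M : 𝓞 L) * y ∈ 𝔞 := by
      rw [← Ideal.Quotient.eq_zero_iff_mem, ← nsmul_eq_mul, map_nsmul]
      exact h4
    rw [Ideal.Quotient.eq_zero_iff_mem, h7]
    exact 𝔞.add_mem (Ideal.mul_mem_left _ _ ha) (Ideal.mul_mem_left _ _ h8)
  rw [h5, addOrderOf_zero] at hx
  exact hp.one_lt.ne hx

theorem two_le_norm {𝔮 : Ideal (𝓞 L)} (hq : Prime 𝔮) : 2 ≤ Ideal.absNorm 𝔮 := by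
  have h1 : Ideal.absNorm 𝔮 ≠ 0 := by
    rw [Ne, Ideal.absNorm_eq_zero_iff]
    exact hq.ne_zero
  have h2 : Ideal.absNorm 𝔮 ≠ 1 := by
    rw [Ne, Ideal.absNorm_eq_one_iff]
    intro h
    exact hq.not_isUnit (Ideal.isUnit_iff.mpr h)
  omega

/-- **GP-RES** -/
theorem t_RES (hT : S_T) (hW : S_W) : S_RES := by
  classical
  obtain ⟨C, hC, hT⟩ := hT
  refine ⟨C, hC, ?_⟩
  intro L _ _ _ hL η hη hn M hM X hX
  have hM0 : Ideal.span {(M : 𝓞 L)} ≠ ⊥ := by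
    rw [Ne, Ideal.span_singleton_eq_bot]
    have : M ≠ 0 := by omega
    exact_mod_cast this
  let Q : Finset (Ideal (𝓞 L)) :=
    (UniqueFactorizationMonoid.normalizedFactors (Ideal.span {(M : 𝓞 L)})).toFinset
  have hmem : ∀ 𝔮, 𝔮 ∈ Q ↔ Prime 𝔮 ∧ 𝔮 ∣ Ideal.span {(M : 𝓞 L)} := by
    intro 𝔮
    rw [Multiset.mem_toFinset]
    constructor
    · intro h
      exact ⟨UniqueFactorizationMonoid.prime_of_normalized_factor 𝔮 h,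
        UniqueFactorizationMonoid.dvd_of_mem_normalizedFactors h⟩
    · rintro ⟨h1, h2⟩
      obtain ⟨𝔮', h3, h4⟩ := UniqueFactorizationMonoid.exists_mem_normalizedFactors_of_dvd hM0
        h1.irreducible h2
      rw [associated_iff_eq] at h4
      rw [h4]
      exact h3
  have hQ : ∀ 𝔭 ∈ Q, Prime 𝔭 := fun 𝔭 h => ((hmem 𝔭).mp h).1
  have h1 : ∀ 𝔞, res M η 𝔞 = fQ η Q 𝔞 := by
    intro 𝔞
    by_cases h0 : 𝔞 = ⊥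
    · have h2 : res M η ⊥ = 0 := map_zero _
      have h3 : η ⊥ = 0 := map_zero _
      rw [h0, h2]
      unfold fQ
      split_ifs
      · rw [h3]
      · rfl
    · rw [res_apply]
      unfold fQ
      have h2 : (Ideal.absNorm 𝔞).Coprime M ↔ ∀ 𝔮 ∈ Q, ¬ 𝔮 ∣ 𝔞 := by
        constructor
        · intro h 𝔮 h3 h4
          obtain ⟨h5, h6⟩ := (hmem 𝔮).mp h3
          have h7 := Ideal.absNorm_dvd_absNorm_of_le (Ideal.dvd_iff_le.mp h4)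
          have h8 := Ideal.absNorm_dvd_absNorm_of_le (Ideal.dvd_iff_le.mp h6)
          rw [norm_nat hL] at h8
          have h9 : (Ideal.absNorm 𝔮).Coprime (M ^ 4) :=
            Nat.Coprime.pow_right 4 (Nat.Coprime.coprime_dvd_left h7 h)
          have h10 := Nat.Coprime.eq_one_of_dvd h9 h8
          have h11 := two_le_norm h5
          omega
        · intro h
          apply coprime_of h0
          by_contra h3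
          obtain ⟨𝔮, h4, h5⟩ := Ideal.exists_le_maximal _ h3
          have h6 : 𝔞 ≤ 𝔮 := le_trans le_sup_left h5
          have h7 : Ideal.span {(M : 𝓞 L)} ≤ 𝔮 := le_trans le_sup_right h5
          have h8 : 𝔮 ≠ ⊥ := by
            rintro rfl
            exact h0 (le_bot_iff.mp h6)
          have h9 : Prime 𝔮 := Ideal.prime_of_isPrime h8 h4.isPrime
          exact h 𝔮 ((hmem 𝔮).mpr ⟨h9, Ideal.dvd_iff_le.mpr h7⟩) (Ideal.dvd_iff_le.mpr h6)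
      by_cases h3 : (Ideal.absNorm 𝔞).Coprime M
      · rw [if_pos h3, if_pos (h2.mp h3)]
      · rw [if_neg h3, if_neg (fun h4 => h3 (h2.mpr h4))]
  have h2 := TQ_le (D := C * |(discr L : ℝ)| ^ 2) hW hL hη (fun X hX => hT L hL η hη hn X hX) Q hQ X hX
  unfold TQ at h2
  simp_rw [h1]
  refine h2.trans ?_
  have h3 : ∏ 𝔮 ∈ Q, (1 + (Ideal.absNorm 𝔮 : ℝ)) ≤ (M : ℝ) ^ 8 := by
    have h4 : ∏ 𝔮 ∈ Q, 𝔮 ∣ Ideal.span {(M : 𝓞 L)} :=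
      Finset.prod_primes_dvd _ hQ fun 𝔮 h => ((hmem 𝔮).mp h).2
    have h5 : ∏ 𝔮 ∈ Q, Ideal.absNorm 𝔮 ∣ M ^ 4 := by
      rw [← norm_nat hL, ← map_prod]
      exact Ideal.absNorm_dvd_absNorm_of_le (Ideal.dvd_iff_le.mp h4)
    have h6 : ∏ 𝔮 ∈ Q, Ideal.absNorm 𝔮 ≤ M ^ 4 := Nat.le_of_dvd (by positivity) h5
    calc ∏ 𝔮 ∈ Q, (1 + (Ideal.absNorm 𝔮 : ℝ)) ≤ ∏ 𝔮 ∈ Q, (Ideal.absNorm 𝔮 : ℝ) ^ 2 := by
          refine Finset.prod_le_prod (fun _ _ => by positivity) fun 𝔮 h => ?_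
          have h7 : (2 : ℝ) ≤ Ideal.absNorm 𝔮 := by exact_mod_cast two_le_norm (hQ 𝔮 h)
          nlinarith
      _ = (∏ 𝔮 ∈ Q, (Ideal.absNorm 𝔮 : ℝ)) ^ 2 := by rw [Finset.prod_pow]
      _ ≤ ((M : ℝ) ^ 4) ^ 2 := by
          apply pow_le_pow_left₀ (Finset.prod_nonneg fun _ _ => by positivity)
          exact_mod_cast h6
      _ = _ := by rw [← pow_mul]
  gcongr

end Pool.Agent.J4H57.GP
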