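import Pool.Agent.J4H78.GP.Stm
import Pool.Agent.Y773.HK.Eul

/-!
# Project GP (MP_d0fd9b_nt), ZB: the Dedekind zeta function at 2, uniformly in degree four
-/

set_option autoImplicit false

open NumberField Complex Filter Topology MeasureTheory
open Pool.Agent.Y773 (VM cc LI zz Ov Ov_iff prime_of_Ov hasProd_LI)

namespace Pool.Agent.J4H57.GP

open Pool.Agent.J4H78.GP

variable {L : Type} [Field L] [NumberField L]

open Classical in
/-- the trivial character of the nonzero ideals -/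
noncomputable def triv (L : Type) [Field L] [NumberField L] : Ideal (𝓞 L) →*₀ ℂ where
  toFun 𝔞 := if 𝔞 = ⊥ then 0 else 1
  map_zero' := by rw [Ideal.zero_eq_bot, if_pos rfl]
  map_one' := by
    rw [if_neg]
    rw [← Ideal.zero_eq_bot]
    exact one_ne_zero
  map_mul' 𝔞 𝔟 := by
    by_cases h1 : 𝔞 = ⊥
    · rw [h1, Ideal.bot_mul, if_pos rfl, zero_mul]
    · by_cases h2 : 𝔟 = ⊥
      · rw [h2, Ideal.mul_bot, if_pos rfl, mul_zero]
      · have h3 : 𝔞 * 𝔟 ≠ ⊥ := mul_ne_zero h1 h2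
        rw [if_neg h1, if_neg h2, if_neg h3, one_mul]

theorem triv_of_ne {𝔞 : Ideal (𝓞 L)} (h : 𝔞 ≠ ⊥) : triv L 𝔞 = 1 := if_neg h

theorem norm_triv (𝔞 : Ideal (𝓞 L)) : ‖triv L 𝔞‖ ≤ 1 := by
  by_cases h : 𝔞 = ⊥
  · have : triv L ⊥ = 0 := map_zero _
    rw [h, this, norm_zero]; exact zero_le_one
  · rw [triv_of_ne h, norm_one]

/-- number of the prime ideals above `p` -/
theorem card_Ov (hL : Module.finrank ℚ L = 4) (p : Nat.Primes) :
    (Ov L p).Finite ∧ (Ov L p).ncard ≤ 4 := by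
  have hp := p.2
  have hmax : (Ideal.span {((p : ℕ) : ℤ)}).IsMaximal :=
    PrincipalIdealRing.isMaximal_of_irreducible (Nat.prime_iff_prime_int.mp hp).irreducible
  have h0 : Ideal.span {((p : ℕ) : ℤ)} ≠ ⊥ := by
    rw [Ne, Ideal.span_singleton_eq_bot]
    exact_mod_cast hp.ne_zero
  have h1 : Ov L p = (IsDedekindDomain.primesOverFinset (Ideal.span {((p : ℕ) : ℤ)}) (𝓞 L) : Set _) := by
    ext 𝔭
    rw [Finset.mem_coe]
    rw [IsDedekindDomain.mem_primesOverFinset_iff h0]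
    constructor
    · intro h
      exact (Ov_iff hp (prime_of_Ov hp h)).1 h
    · intro h
      have hpr : Prime 𝔭 := by
        refine Ideal.prime_of_isPrime ?_ h.1
        have := h.2
        rintro rfl
        exact Ideal.ne_bot_of_liesOver_of_ne_bot (P := (⊥ : Ideal (𝓞 L))) h0 rfl
      exact (Ov_iff hp hpr).2 h
  rw [h1]
  refine ⟨Finset.finite_toSet _, ?_⟩
  rw [Set.ncard_coe_finset]
  have := Ideal.card_primesOverFinset_le_finrank (p := Ideal.span {((p : ℕ) : ℤ)}) (S := 𝓞 L)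
    (K := ℚ) (L := L) h0
  rw [hL] at this
  exact this

theorem le_norm (p : Nat.Primes) {𝔭 : Ideal (𝓞 L)} (h : 𝔭 ∈ Ov L p) :
    (p : ℕ) ≤ Ideal.absNorm 𝔭 := by
  by_contra hlt
  push Not at hlt
  have hpr := prime_of_Ov p.2 h
  have h0 : Ideal.absNorm 𝔭 ≠ 0 := fun h1 => hpr.ne_zero (Ideal.absNorm_eq_zero_iff.mp h1)
  have hcop : Nat.Coprime (Ideal.absNorm 𝔭) (p : ℕ) :=
    (Nat.coprime_of_lt_prime h0 hlt p.2).symm
  obtain ⟨u, v, huv⟩ := Nat.isCoprime_iff_coprime.mpr hcop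
  have h4 : (1 : 𝓞 L) ∈ 𝔭 := by
    have h5 : ((u * (Ideal.absNorm 𝔭 : ℕ) + v * (p : ℕ) : ℤ) : 𝓞 L) = 1 := by rw [huv]; simp
    rw [← h5]
    push_cast
    exact 𝔭.add_mem (Ideal.mul_mem_left _ _ (Ideal.absNorm_mem 𝔭)) (Ideal.mul_mem_left _ _ h.2)
  exact h.1.ne_top ((Ideal.eq_top_iff_one _).mpr h4)

theorem two_re : (-(2 : ℂ)).re = -2 := by simp

theorem local_le (hL : Module.finrank ℚ L = 4) (p : Nat.Primes) :
    ‖(∏ᶠ 𝔭 ∈ Ov L p, (1 - zz (triv L) 2 𝔭))⁻¹‖ ≤ ‖(1 - ((p : ℕ) : ℂ) ^ (-(2 : ℂ)))⁻¹‖ ^ 4 := by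
  classical
  obtain ⟨hfin, hcard⟩ := card_Ov hL p
  have hp1 : (1 : ℝ) < ((p : ℕ) : ℝ) := by exact_mod_cast p.2.one_lt
  set r : ℝ := 1 - ((p : ℕ) : ℝ) ^ (-2 : ℝ) with hr
  have hq : ((p : ℕ) : ℝ) ^ (-2 : ℝ) < 1 := Real.rpow_lt_one_of_one_lt_of_neg hp1 (by norm_num)
  have hq0 : 0 < ((p : ℕ) : ℝ) ^ (-2 : ℝ) := Real.rpow_pos_of_pos (by linarith) _
  have hr0 : 0 < r := by rw [hr]; linarith
  have hr1 : r ≤ 1 := by rw [hr]; linarith
  have e1 : (1 - ((p : ℕ) : ℂ) ^ (-(2 : ℂ))) = (r : ℂ) := by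
    have : ((p : ℕ) : ℂ) ^ (-(2 : ℂ)) = ((((p : ℕ) : ℝ) ^ (-2 : ℝ) : ℝ) : ℂ) := by
      rw [Complex.ofReal_cpow (by linarith)]
      push_cast
      rfl
    rw [this, hr]
    push_cast
    rfl
  have e2 : ‖(1 - ((p : ℕ) : ℂ) ^ (-(2 : ℂ)))⁻¹‖ = r⁻¹ := by
    rw [e1, norm_inv, Complex.norm_real, Real.norm_of_nonneg hr0.le]
  rw [e2, norm_inv, inv_pow]
  rw [finprod_mem_eq_finite_toFinset_prod _ hfin, norm_prod]
  have h1 : r ^ 4 ≤ ∏ 𝔭 ∈ hfin.toFinset, ‖1 - zz (triv L) 2 𝔭‖ := by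
    calc r ^ 4 ≤ r ^ hfin.toFinset.card := by
          apply pow_le_pow_of_le_one hr0.le hr1
          rwa [← Set.ncard_eq_toFinset_card _ hfin]
      _ = ∏ 𝔭 ∈ hfin.toFinset, r := by rw [Finset.prod_const]
      _ ≤ _ := by
          refine Finset.prod_le_prod (fun _ _ => hr0.le) fun 𝔭 h𝔭 => ?_
          rw [Set.Finite.mem_toFinset] at h𝔭
          have hpr := prime_of_Ov p.2 h𝔭
          have hN := le_norm p h𝔭
          have h2 : ‖zz (triv L) 2 𝔭‖ ≤ ((p : ℕ) : ℝ) ^ (-2 : ℝ) := by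
            unfold zz
            rw [norm_mul, Complex.norm_natCast_cpow_of_pos (by have := p.2.pos; omega), two_re]
            calc ‖triv L 𝔭‖ * (Ideal.absNorm 𝔭 : ℝ) ^ (-2 : ℝ)
                ≤ 1 * (Ideal.absNorm 𝔭 : ℝ) ^ (-2 : ℝ) :=
                  mul_le_mul_of_nonneg_right (norm_triv _) (by positivity)
              _ = (Ideal.absNorm 𝔭 : ℝ) ^ (-2 : ℝ) := one_mul _
              _ ≤ _ := Real.rpow_le_rpow_of_nonpos (by linarith) (by exact_mod_cast hN) (by norm_num)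
          calc r = 1 - ((p : ℕ) : ℝ) ^ (-2 : ℝ) := rfl
            _ ≤ ‖(1 : ℂ)‖ - ‖zz (triv L) 2 𝔭‖ := by rw [norm_one]; linarith
            _ ≤ ‖1 - zz (triv L) 2 𝔭‖ := norm_sub_norm_le _ _
  exact inv_anti₀ (by positivity) h1

theorem LI_le (hL : Module.finrank ℚ L = 4) : ‖LI (triv L) 2‖ ≤ ‖riemannZeta 2‖ ^ 4 := by
  have h1 := hasProd_LI (ψ := triv L) norm_triv (s := 2) (by norm_num)
  have h2 := riemannZeta_eulerProduct_hasProd (s := 2) (by norm_num)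
  have h3 := (continuous_norm.tendsto _).comp h1
  have h4 := ((continuous_norm.tendsto _).comp h2).pow 4
  refine le_of_tendsto_of_tendsto' h3 h4 fun S => ?_
  simp only [Function.comp_apply]
  rw [norm_prod, norm_prod, ← Finset.prod_pow]
  exact Finset.prod_le_prod (fun _ _ => norm_nonneg _) fun p _ => local_le hL p

theorem term_eq {𝔞 : Ideal (𝓞 L)} (h : 𝔞 ≠ ⊥) :
    triv L 𝔞 * ((Ideal.absNorm 𝔞 : ℕ) : ℂ) ^ (-(2 : ℂ)) =
      (((Ideal.absNorm 𝔞 : ℝ) ^ (-2 : ℝ) : ℝ) : ℂ) := by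
  rw [triv_of_ne h, one_mul, Complex.ofReal_cpow (by positivity)]
  push_cast
  rfl

/-- **GP-ZB** -/
theorem t_ZB : S_ZB := by
  refine ⟨‖riemannZeta 2‖ ^ 4 + 1, by positivity, fun L _ _ hL => ?_⟩
  have hs : Summable fun 𝔞 : {𝔞 : Ideal (𝓞 L) // 𝔞 ≠ ⊥} =>
      (Ideal.absNorm 𝔞.1 : ℝ) ^ (-2 : ℝ) := by
    have h1 := Pool.Agent.Y772.DK.term_summable (a := fun 𝔞 => triv L 𝔞) (map_zero (triv L))
      norm_triv (s := 2) (by norm_num)
    have h2 := h1.comp_injective (i := fun 𝔞 : {𝔞 : Ideal (𝓞 L) // 𝔞 ≠ ⊥} => 𝔞.1)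
      Subtype.val_injective
    refine h2.congr fun 𝔞 => ?_
    simp only [Function.comp_apply]
    rw [term_eq 𝔞.2, Complex.norm_real, Real.norm_of_nonneg (by positivity)]
  refine ⟨hs, ?_⟩
  have h1 : ((∑' 𝔞 : {𝔞 : Ideal (𝓞 L) // 𝔞 ≠ ⊥}, (Ideal.absNorm 𝔞.1 : ℝ) ^ (-2 : ℝ) : ℝ) : ℂ) =
      LI (triv L) 2 := by
    rw [Complex.ofReal_tsum]
    unfold LI
    rw [← tsum_subtype_eq_of_support_subset (s := {𝔞 : Ideal (𝓞 L) | 𝔞 ≠ ⊥})]
    · refine tsum_congr fun 𝔞 => ?_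
      exact (term_eq 𝔞.2).symm
    · intro 𝔞 h𝔞
      rw [Function.mem_support] at h𝔞
      rintro rfl
      apply h𝔞
      have : triv L ⊥ = 0 := map_zero _
      rw [this, zero_mul]
  have h2 : ∑' 𝔞 : {𝔞 : Ideal (𝓞 L) // 𝔞 ≠ ⊥}, (Ideal.absNorm 𝔞.1 : ℝ) ^ (-2 : ℝ) =
      ‖LI (triv L) 2‖ := by
    rw [← h1, Complex.norm_real, Real.norm_of_nonneg (tsum_nonneg fun _ => by positivity)]
  rw [h2]
  have := LI_le hL
  linarith

end Pool.Agent.J4H57.GP
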