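import Pool.Agent.J4H57.GP.Res
import Pool.Agent.J4H57.GP.Zb
import Pool.Agent.J4H78.GP.Stm3

/-!
# Project GP3 (MP_d0fd9b_nt), RES3: sums over the ideals prime to a number, sharp form
-/

set_option autoImplicit false

open NumberField Complex Filter Topology MeasureTheory
open Pool.Agent.Y773 (Ov Ov_iff prime_of_Ov)

namespace Pool.Agent.J4H57.GP

open Pool.Agent.J4H78.GP

variable {L : Type} [Field L] [NumberField L]

theorem TQ_le3 (hW : S_W) (hL : Module.finrank ℚ L = 4) {η : Ideal (𝓞 L) →*₀ ℂ} (hη : IsCl L η)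
    {D ε : ℝ} (hT : ∀ X : ℝ, 0 < X →
      ‖∑' 𝔞 : Ideal (𝓞 L), η 𝔞 * ((W ((Ideal.absNorm 𝔞 : ℝ) / X) : ℝ) : ℂ)‖ ≤ D * X ^ (-ε))
    (Q : Finset (Ideal (𝓞 L))) (hQ : ∀ 𝔭 ∈ Q, Prime 𝔭) : ∀ X : ℝ, 0 < X →
      ‖TQ η Q X‖ ≤ D * (∏ 𝔮 ∈ Q, (1 + (Ideal.absNorm 𝔮 : ℝ) ^ ε)) * X ^ (-ε) := by
  classical
  induction Q using Finset.induction_on with
  | empty =>
    intro X hX
    rw [Finset.prod_empty, mul_one]
    refine le_trans (le_of_eq ?_) (hT X hX)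
    have h1 : ∀ 𝔞, fQ η ∅ 𝔞 = η 𝔞 := by
      intro 𝔞
      unfold fQ
      exact if_pos (by simp)
    unfold TQ
    simp_rw [h1]
  | insert 𝔮 Q hn ih =>
    intro X hX
    have hq : Prime 𝔮 := hQ 𝔮 (Finset.mem_insert_self _ _)
    have hQ' : ∀ 𝔭 ∈ Q, Prime 𝔭 := fun 𝔭 h => hQ 𝔭 (Finset.mem_insert_of_mem h)
    have hN := absNorm_pos' hq.ne_zero
    rw [TQ_insert hW hL hη hq hQ' hn hX, Finset.prod_insert hn]
    have h1 := ih hQ' X hX
    have h2 := ih hQ' (X / Ideal.absNorm 𝔮) (by positivity)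
    have h3 : (X / (Ideal.absNorm 𝔮 : ℝ)) ^ (-ε) = X ^ (-ε) * (Ideal.absNorm 𝔮 : ℝ) ^ ε := by
      rw [div_eq_mul_inv, Real.mul_rpow hX.le (by positivity), Real.inv_rpow hN.le,
        ← Real.rpow_neg hN.le, neg_neg]
    calc ‖TQ η Q X - η 𝔮 * TQ η Q (X / Ideal.absNorm 𝔮)‖
        ≤ ‖TQ η Q X‖ + ‖η 𝔮 * TQ η Q (X / Ideal.absNorm 𝔮)‖ := norm_sub_le _ _
      _ = ‖TQ η Q X‖ + ‖TQ η Q (X / Ideal.absNorm 𝔮)‖ := by
          rw [norm_mul, norm_eta hη hq.ne_zero, one_mul]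
      _ ≤ D * (∏ 𝔮 ∈ Q, (1 + (Ideal.absNorm 𝔮 : ℝ) ^ ε)) * X ^ (-ε) +
          D * (∏ 𝔮 ∈ Q, (1 + (Ideal.absNorm 𝔮 : ℝ) ^ ε)) * (X / Ideal.absNorm 𝔮) ^ (-ε) := add_le_add h1 h2
      _ = _ := by
          rw [h3]
          ring

/-- **GP-RES3** -/
theorem t_RES3 (hT : S_T3) (hW : S_W) : S_RES3 := by
  classical
  intro ε hε
  obtain ⟨C, hC, hT⟩ := hT (1 + ε) (by linarith)
  refine ⟨C * 2 ^ 12, by positivity, ?_⟩
  intro L _ _ _ hL η hη hn M hM hM3 X hX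
  have hX0 : 0 < X := by linarith
  have hMne : M ≠ 0 := by omega
  have hM0 : Ideal.span {(M : 𝓞 L)} ≠ ⊥ := by
    rw [Ne, Ideal.span_singleton_eq_bot]
    exact_mod_cast hMne
  let Q : Finset (Ideal (𝓞 L)) :=
    (UniqueFactorizationMonoid.normalizedFactors (Ideal.span {(M : 𝓞 L)})).toFinset
  have hmem : ∀ 𝔮, 𝔮 ∈ Q ↔ Prime 𝔮 ∧ 𝔮 ∣ Ideal.span {(M : 𝓞 L)} := by
    intro 𝔮
    rw [Multiset.mem_toFinset]
    constructor
    · intro h
      exact ⟨UniqueFactorizationMonoid.prime_of_normalized_factor 𝔮 h,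
        UniqueFactorizationMonoid.dvd_of_mem_normalizedFactors h⟩
    · rintro ⟨h1, h2⟩
      obtain ⟨𝔮', h3, h4⟩ := UniqueFactorizationMonoid.exists_mem_normalizedFactors_of_dvd hM0
        h1.irreducible h2
      rw [associated_iff_eq] at h4
      rw [h4]
      exact h3
  have hQ : ∀ 𝔭 ∈ Q, Prime 𝔭 := fun 𝔭 h => ((hmem 𝔭).mp h).1
  have h1 : ∀ 𝔞, res M η 𝔞 = fQ η Q 𝔞 := by
    intro 𝔞
    by_cases h0 : 𝔞 = ⊥
    · have h2 : res M η ⊥ = 0 := map_zero _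
      have h3 : η ⊥ = 0 := map_zero _
      rw [h0, h2]
      unfold fQ
      split_ifs
      · rw [h3]
      · rfl
    · rw [res_apply]
      unfold fQ
      have h2 : (Ideal.absNorm 𝔞).Coprime M ↔ ∀ 𝔮 ∈ Q, ¬ 𝔮 ∣ 𝔞 := by
        constructor
        · intro h 𝔮 h3 h4
          obtain ⟨h5, h6⟩ := (hmem 𝔮).mp h3
          have h7 := Ideal.absNorm_dvd_absNorm_of_le (Ideal.dvd_iff_le.mp h4)
          have h8 := Ideal.absNorm_dvd_absNorm_of_le (Ideal.dvd_iff_le.mp h6)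
          rw [norm_nat hL] at h8
          have h9 : (Ideal.absNorm 𝔮).Coprime (M ^ 4) :=
            Nat.Coprime.pow_right 4 (Nat.Coprime.coprime_dvd_left h7 h)
          have h10 := Nat.Coprime.eq_one_of_dvd h9 h8
          have h11 := two_le_norm h5
          omega
        · intro h
          apply coprime_of h0
          by_contra h3
          obtain ⟨𝔮, h4, h5⟩ := Ideal.exists_le_maximal _ h3
          have h6 : 𝔞 ≤ 𝔮 := le_trans le_sup_left h5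
          have h7 : Ideal.span {(M : 𝓞 L)} ≤ 𝔮 := le_trans le_sup_right h5
          have h8 : 𝔮 ≠ ⊥ := by
            rintro rfl
            exact h0 (le_bot_iff.mp h6)
          have h9 : Prime 𝔮 := Ideal.prime_of_isPrime h8 h4.isPrime
          exact h 𝔮 ((hmem 𝔮).mpr ⟨h9, Ideal.dvd_iff_le.mpr h7⟩) (Ideal.dvd_iff_le.mpr h6)
      by_cases h3 : (Ideal.absNorm 𝔞).Coprime M
      · rw [if_pos h3, if_pos (h2.mp h3)]
      · rw [if_neg h3, if_neg (fun h4 => h3 (h2.mpr h4))]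
  have hT' : ∀ X : ℝ, 0 < X →
      ‖∑' 𝔞 : Ideal (𝓞 L), η 𝔞 * ((W ((Ideal.absNorm 𝔞 : ℝ) / X) : ℝ) : ℂ)‖ ≤
        C * |(discr L : ℝ)| ^ (1 / 2 + ε) * X ^ (-ε) := by
    intro X hX
    have h2 := hT L hL η hη hn X hX
    have e1 : (1 + ε - 1 / 2 : ℝ) = 1 / 2 + ε := by ring
    have e2 : (1 - (1 + ε) : ℝ) = -ε := by ring
    rw [e1, e2] at h2
    exact h2
  have h2 := TQ_le3 hW hL hη hT' Q hQ X hX0
  unfold TQ at h2
  simp_rw [h1]
  refine h2.trans ?_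
  have hcard : Q.card ≤ 12 := by
    have h3 : Q ⊆ M.primeFactors.attach.biUnion (fun p =>
        (card_Ov (L := L) hL ⟨p.1, Nat.prime_of_mem_primeFactors p.2⟩).1.toFinset) := by
      intro 𝔮 h𝔮
      obtain ⟨h4, h5⟩ := (hmem 𝔮).mp h𝔮
      have h6 : (M : 𝓞 L) ∈ 𝔮 := by
        rw [← Ideal.span_singleton_le_iff_mem]
        exact Ideal.dvd_iff_le.mp h5
      have h7 : 𝔮.IsPrime := Ideal.isPrime_of_prime h4
      have h8 : ∃ p ∈ M.primeFactors, ((p : ℕ) : 𝓞 L) ∈ 𝔮 := by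
        have h9 : ((∏ p ∈ M.primeFactors, p ^ M.factorization p : ℕ) : 𝓞 L) ∈ 𝔮 := by
          have h10 : ∏ p ∈ M.primeFactors, p ^ M.factorization p = M :=
            Nat.prod_factorization_pow_eq_self hMne
          rw [h10]
          exact h6
        rw [Nat.cast_prod, h7.prod_mem_iff] at h9
        obtain ⟨p, hp, h10⟩ := h9
        rw [Nat.cast_pow] at h10
        exact ⟨p, hp, h7.mem_of_pow_mem _ h10⟩
      obtain ⟨p, hp, h9⟩ := h8
      rw [Finset.mem_biUnion]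
      refine ⟨⟨p, hp⟩, Finset.mem_attach _ _, ?_⟩
      rw [Set.Finite.mem_toFinset]
      exact ⟨h7, h9⟩
    refine (Finset.card_le_card h3).trans (Finset.card_biUnion_le.trans ?_)
    calc ∑ p ∈ M.primeFactors.attach, (card_Ov (L := L) hL ⟨p.1, Nat.prime_of_mem_primeFactors p.2⟩).1.toFinset.card
        ≤ ∑ p ∈ M.primeFactors.attach, 4 := by
          refine Finset.sum_le_sum fun p _ => ?_
          rw [← Set.ncard_eq_toFinset_card _ _]
          exact (card_Ov (L := L) hL ⟨p.1, Nat.prime_of_mem_primeFactors p.2⟩).2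
      _ = M.primeFactors.card * 4 := by
          rw [Finset.sum_const, Finset.card_attach, smul_eq_mul]
      _ ≤ 12 := by omega
  have h3 : ∏ 𝔮 ∈ Q, (1 + (Ideal.absNorm 𝔮 : ℝ) ^ ε) ≤ 2 ^ 12 * (M : ℝ) ^ (4 * ε) := by
    have h4 : ∏ 𝔮 ∈ Q, 𝔮 ∣ Ideal.span {(M : 𝓞 L)} :=
      Finset.prod_primes_dvd _ hQ fun 𝔮 h => ((hmem 𝔮).mp h).2
    have h5 : ∏ 𝔮 ∈ Q, Ideal.absNorm 𝔮 ∣ M ^ 4 := by
      rw [← norm_nat hL, ← map_prod]
      exact Ideal.absNorm_dvd_absNorm_of_le (Ideal.dvd_iff_le.mp h4)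
    have h6 : ∏ 𝔮 ∈ Q, Ideal.absNorm 𝔮 ≤ M ^ 4 := Nat.le_of_dvd (by positivity) h5
    calc ∏ 𝔮 ∈ Q, (1 + (Ideal.absNorm 𝔮 : ℝ) ^ ε) ≤ ∏ 𝔮 ∈ Q, (2 * (Ideal.absNorm 𝔮 : ℝ) ^ ε) := by
          refine Finset.prod_le_prod (fun _ _ => by positivity) fun 𝔮 h => ?_
          have h7 : (1 : ℝ) ≤ Ideal.absNorm 𝔮 := by
            have := two_le_norm (hQ 𝔮 h)
            exact_mod_cast (by omega : 1 ≤ Ideal.absNorm 𝔮)
          have h8 := Real.one_le_rpow h7 hε.le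
          linarith
      _ = 2 ^ Q.card * (∏ 𝔮 ∈ Q, (Ideal.absNorm 𝔮 : ℝ)) ^ ε := by
          rw [Finset.prod_mul_distrib, Finset.prod_const, Real.finset_prod_rpow _ _ fun _ _ => by positivity]
      _ ≤ 2 ^ 12 * ((M : ℝ) ^ 4) ^ ε := by
          refine mul_le_mul (pow_le_pow_right₀ (by norm_num) hcard) ?_ (by positivity) (by positivity)
          apply Real.rpow_le_rpow (Finset.prod_nonneg fun _ _ => by positivity) _ hε.le
          exact_mod_cast h6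
      _ = _ := by
          rw [Real.rpow_mul (by positivity)]
          norm_num
  have h4 : X ^ (-ε) ≤ 1 := Real.rpow_le_one_of_one_le_of_nonpos hX (by linarith)
  calc C * |(discr L : ℝ)| ^ (1 / 2 + ε) * (∏ 𝔮 ∈ Q, (1 + (Ideal.absNorm 𝔮 : ℝ) ^ ε)) * X ^ (-ε)
      ≤ C * |(discr L : ℝ)| ^ (1 / 2 + ε) * (2 ^ 12 * (M : ℝ) ^ (4 * ε)) * 1 := by
        refine mul_le_mul (mul_le_mul_of_nonneg_left h3 (by positivity)) h4 (by positivity) (by positivity)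
    _ = _ := by ring

end Pool.Agent.J4H57.GP
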