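import Pool.Agent.J4H78.GP.Stm3
import Pool.Agent.J4H57.GP.Zb

/-!
# Project GP3 (MP_d0fd9b_nt), ZB3: the Dedekind zeta function at `s > 1`, uniformly in degree four
-/

set_option autoImplicit false

open NumberField Complex Filter Topology MeasureTheory
open Pool.Agent.Y773 (VM cc LI zz Ov Ov_iff prime_of_Ov hasProd_LI)

namespace Pool.Agent.J4H57.GP.Z3

open Pool.Agent.J4H78.GP
open Pool.Agent.J4H57.GP

variable {L : Type} [Field L] [NumberField L]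

theorem s_re (s : ℝ) : (-(s : ℂ)).re = -s := by simp

theorem local_le {s : ℝ} (hs : 1 < s) (hL : Module.finrank ℚ L = 4) (p : Nat.Primes) :
    ‖(∏ᶠ 𝔭 ∈ Ov L p, (1 - zz (triv L) (s : ℂ) 𝔭))⁻¹‖ ≤ ‖(1 - ((p : ℕ) : ℂ) ^ (-(s : ℂ)))⁻¹‖ ^ 4 := by
  classical
  obtain ⟨hfin, hcard⟩ := card_Ov hL p
  have hp1 : (1 : ℝ) < ((p : ℕ) : ℝ) := by exact_mod_cast p.2.one_lt
  set r : ℝ := 1 - ((p : ℕ) : ℝ) ^ (-s : ℝ) with hr
  have hq : ((p : ℕ) : ℝ) ^ (-s : ℝ) < 1 := Real.rpow_lt_one_of_one_lt_of_neg hp1 (by linarith)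
  have hq0 : 0 < ((p : ℕ) : ℝ) ^ (-s : ℝ) := Real.rpow_pos_of_pos (by linarith) _
  have hr0 : 0 < r := by rw [hr]; linarith
  have hr1 : r ≤ 1 := by rw [hr]; linarith
  have e1 : (1 - ((p : ℕ) : ℂ) ^ (-(s : ℂ))) = (r : ℂ) := by
    have : ((p : ℕ) : ℂ) ^ (-(s : ℂ)) = ((((p : ℕ) : ℝ) ^ (-s : ℝ) : ℝ) : ℂ) := by
      rw [Complex.ofReal_cpow (by linarith)]
      push_cast
      rfl
    rw [this, hr]
    push_cast
    rfl
  have e2 : ‖(1 - ((p : ℕ) : ℂ) ^ (-(s : ℂ)))⁻¹‖ = r⁻¹ := by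
    rw [e1, norm_inv, Complex.norm_real, Real.norm_of_nonneg hr0.le]
  rw [e2, norm_inv, inv_pow]
  rw [finprod_mem_eq_finite_toFinset_prod _ hfin, norm_prod]
  have h1 : r ^ 4 ≤ ∏ 𝔭 ∈ hfin.toFinset, ‖1 - zz (triv L) (s : ℂ) 𝔭‖ := by
    calc r ^ 4 ≤ r ^ hfin.toFinset.card := by
          apply pow_le_pow_of_le_one hr0.le hr1
          rwa [← Set.ncard_eq_toFinset_card _ hfin]
      _ = ∏ 𝔭 ∈ hfin.toFinset, r := by rw [Finset.prod_const]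
      _ ≤ _ := by
          refine Finset.prod_le_prod (fun _ _ => hr0.le) fun 𝔭 h𝔭 => ?_
          rw [Set.Finite.mem_toFinset] at h𝔭
          have hpr := prime_of_Ov p.2 h𝔭
          have hN := le_norm p h𝔭
          have h2 : ‖zz (triv L) (s : ℂ) 𝔭‖ ≤ ((p : ℕ) : ℝ) ^ (-s : ℝ) := by
            unfold zz
            rw [norm_mul, Complex.norm_natCast_cpow_of_pos (by have := p.2.pos; omega), s_re]
            calc ‖triv L 𝔭‖ * (Ideal.absNorm 𝔭 : ℝ) ^ (-s : ℝ)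
                ≤ 1 * (Ideal.absNorm 𝔭 : ℝ) ^ (-s : ℝ) :=
                  mul_le_mul_of_nonneg_right (norm_triv _) (by positivity)
              _ = (Ideal.absNorm 𝔭 : ℝ) ^ (-s : ℝ) := one_mul _
              _ ≤ _ := Real.rpow_le_rpow_of_nonpos (by linarith) (by exact_mod_cast hN) (by linarith)
          calc r = 1 - ((p : ℕ) : ℝ) ^ (-s : ℝ) := rfl
            _ ≤ ‖(1 : ℂ)‖ - ‖zz (triv L) (s : ℂ) 𝔭‖ := by rw [norm_one]; linarith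
            _ ≤ ‖1 - zz (triv L) (s : ℂ) 𝔭‖ := norm_sub_norm_le _ _
  exact inv_anti₀ (by positivity) h1

theorem LI_le {s : ℝ} (hs : 1 < s) (hL : Module.finrank ℚ L = 4) : ‖LI (triv L) (s : ℂ)‖ ≤ ‖riemannZeta (s : ℂ)‖ ^ 4 := by
  have hs' : 1 < ((s : ℝ) : ℂ).re := by simpa using hs
  have h1 := hasProd_LI (ψ := triv L) norm_triv (s := (s : ℂ)) hs'
  have h2 := riemannZeta_eulerProduct_hasProd (s := (s : ℂ)) hs'
  have h3 := (continuous_norm.tendsto _).comp h1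
  have h4 := ((continuous_norm.tendsto _).comp h2).pow 4
  refine le_of_tendsto_of_tendsto' h3 h4 fun S => ?_
  simp only [Function.comp_apply]
  rw [norm_prod, norm_prod, ← Finset.prod_pow]
  exact Finset.prod_le_prod (fun _ _ => norm_nonneg _) fun p _ => local_le hs hL p

theorem term_eq (s : ℝ) {𝔞 : Ideal (𝓞 L)} (h : 𝔞 ≠ ⊥) :
    triv L 𝔞 * ((Ideal.absNorm 𝔞 : ℕ) : ℂ) ^ (-(s : ℂ)) =
      (((Ideal.absNorm 𝔞 : ℝ) ^ (-s : ℝ) : ℝ) : ℂ) := by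
  rw [triv_of_ne h, one_mul, Complex.ofReal_cpow (by positivity)]
  push_cast
  rfl

/-- **GP-ZB3** -/
theorem t_ZB3 : S_ZB3 := by
  intro s hs1
  have hs' : 1 < ((s : ℝ) : ℂ).re := by simpa using hs1
  refine ⟨‖riemannZeta (s : ℂ)‖ ^ 4 + 1, by positivity, fun L _ _ hL => ?_⟩
  have hs : Summable fun 𝔞 : {𝔞 : Ideal (𝓞 L) // 𝔞 ≠ ⊥} =>
      (Ideal.absNorm 𝔞.1 : ℝ) ^ (-s : ℝ) := by
    have h1 := Pool.Agent.Y772.DK.term_summable (a := fun 𝔞 => triv L 𝔞) (map_zero (triv L))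
      norm_triv (s := (s : ℂ)) hs'
    have h2 := h1.comp_injective (i := fun 𝔞 : {𝔞 : Ideal (𝓞 L) // 𝔞 ≠ ⊥} => 𝔞.1)
      Subtype.val_injective
    refine h2.congr fun 𝔞 => ?_
    simp only [Function.comp_apply]
    rw [term_eq s 𝔞.2, Complex.norm_real, Real.norm_of_nonneg (by positivity)]
  refine ⟨hs, ?_⟩
  have h1 : ((∑' 𝔞 : {𝔞 : Ideal (𝓞 L) // 𝔞 ≠ ⊥}, (Ideal.absNorm 𝔞.1 : ℝ) ^ (-s : ℝ) : ℝ) : ℂ) =
      LI (triv L) (s : ℂ) := by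
    rw [Complex.ofReal_tsum]
    unfold LI
    rw [← tsum_subtype_eq_of_support_subset (s := {𝔞 : Ideal (𝓞 L) | 𝔞 ≠ ⊥})]
    · refine tsum_congr fun 𝔞 => ?_
      exact (term_eq s 𝔞.2).symm
    · intro 𝔞 h𝔞
      rw [Function.mem_support] at h𝔞
      rintro rfl
      apply h𝔞
      have : triv L ⊥ = 0 := map_zero _
      rw [this, zero_mul]
  have h2 : ∑' 𝔞 : {𝔞 : Ideal (𝓞 L) // 𝔞 ≠ ⊥}, (Ideal.absNorm 𝔞.1 : ℝ) ^ (-s : ℝ) =
      ‖LI (triv L) (s : ℂ)‖ := by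
    rw [← h1, Complex.norm_real, Real.norm_of_nonneg (tsum_nonneg fun _ => by positivity)]
  rw [h2]
  have := LI_le hs1 hL
  linarith

end Pool.Agent.J4H57.GP.Z3

namespace Pool.Agent.J4H57.GP

theorem t_ZB3 : Pool.Agent.J4H78.GP.S_ZB3 := Z3.t_ZB3

end Pool.Agent.J4H57.GP
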