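import Pool.Agent.J4H57.GP.T
import Pool.Agent.J4H78.GP.Stm3
import Pool.Agent.J4H57.GP.Zb3

/-!
# Project GP3 (MP_d0fd9b_nt), T3: theta sums of class group characters in degree four, sharp form
-/

set_option autoImplicit false

open NumberField Complex Filter Topology MeasureTheory
open Pool.Agent.Y773 (VM cc hf FT PIdl gen Sc Reps exists_unique_class span_gen gen_ne_zero)

namespace Pool.Agent.J4H57.GP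

open Pool.Agent.J4H78.GP

variable {L : Type} [Field L] [NumberField L]

/-- the weight summed over the nonzero ideals -/
theorem sum_W3 (hW : S_W) {s C₁ C₂ : ℝ} (hC₁ : ∀ u : ℝ, 0 < u → W u ≤ C₁ * u ^ (-s : ℝ)) (h1 : 0 < C₁)
    (hs : Summable fun 𝔞 : {𝔞 : Ideal (𝓞 L) // 𝔞 ≠ ⊥} => (Ideal.absNorm 𝔞.1 : ℝ) ^ (-s : ℝ))
    (hC₂ : ∑' 𝔞 : {𝔞 : Ideal (𝓞 L) // 𝔞 ≠ ⊥}, (Ideal.absNorm 𝔞.1 : ℝ) ^ (-s : ℝ) ≤ C₂)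
    {t : ℝ} (ht : 0 < t) :
    (Summable fun 𝔞 : Ideal (𝓞 L) => ‖triv L 𝔞‖ * W ((Ideal.absNorm 𝔞 : ℝ) * t)) ∧
      ∑' 𝔞 : Ideal (𝓞 L), ‖triv L 𝔞‖ * W ((Ideal.absNorm 𝔞 : ℝ) * t) ≤ C₁ * C₂ * t ^ (-s : ℝ) := by
  have h2 : Summable fun 𝔞 : Ideal (𝓞 L) =>
      Set.indicator {𝔞 : Ideal (𝓞 L) | 𝔞 ≠ ⊥} (fun 𝔞 => (Ideal.absNorm 𝔞 : ℝ) ^ (-s : ℝ)) 𝔞 :=
    (summable_subtype_iff_indicator (f := fun 𝔞 : Ideal (𝓞 L) => (Ideal.absNorm 𝔞 : ℝ) ^ (-s : ℝ))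
      (s := {𝔞 : Ideal (𝓞 L) | 𝔞 ≠ ⊥})).mp hs
  have h3 : ∑' 𝔞 : Ideal (𝓞 L),
      Set.indicator {𝔞 : Ideal (𝓞 L) | 𝔞 ≠ ⊥} (fun 𝔞 => (Ideal.absNorm 𝔞 : ℝ) ^ (-s : ℝ)) 𝔞 ≤ C₂ := by
    rw [← tsum_subtype {𝔞 : Ideal (𝓞 L) | 𝔞 ≠ ⊥} (fun 𝔞 => (Ideal.absNorm 𝔞 : ℝ) ^ (-s : ℝ))]
    exact hC₂
  have h4 : ∀ 𝔞 : Ideal (𝓞 L), ‖triv L 𝔞‖ * W ((Ideal.absNorm 𝔞 : ℝ) * t) ≤
      C₁ * t ^ (-s : ℝ) *
        Set.indicator {𝔞 : Ideal (𝓞 L) | 𝔞 ≠ ⊥} (fun 𝔞 => (Ideal.absNorm 𝔞 : ℝ) ^ (-s : ℝ)) 𝔞 := by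
    intro 𝔞
    by_cases h0 : 𝔞 = ⊥
    · rw [h0, ← Ideal.zero_eq_bot, map_zero, norm_zero, zero_mul]
      refine mul_nonneg (mul_nonneg h1.le (Real.rpow_nonneg ht.le _)) ?_
      exact Set.indicator_nonneg (fun _ _ => Real.rpow_nonneg (Nat.cast_nonneg _) _) _
    · have hN := absNorm_pos' h0
      rw [triv_of_ne h0, norm_one, one_mul,
        Set.indicator_of_mem (show 𝔞 ∈ {𝔞 : Ideal (𝓞 L) | 𝔞 ≠ ⊥} from h0)]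
      have h5 := hC₁ ((Ideal.absNorm 𝔞 : ℝ) * t) (by positivity)
      rw [Real.mul_rpow hN.le ht.le] at h5
      calc _ ≤ _ := h5
        _ = _ := by ring
  have h5 : Summable fun 𝔞 : Ideal (𝓞 L) => ‖triv L 𝔞‖ * W ((Ideal.absNorm 𝔞 : ℝ) * t) :=
    Summable.of_nonneg_of_le (fun 𝔞 => mul_nonneg (norm_nonneg _) (hW.1 _)) h4
      (h2.mul_left (C₁ * t ^ (-s : ℝ)))
  refine ⟨h5, ?_⟩
  calc ∑' 𝔞 : Ideal (𝓞 L), ‖triv L 𝔞‖ * W ((Ideal.absNorm 𝔞 : ℝ) * t)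
      ≤ ∑' 𝔞 : Ideal (𝓞 L), C₁ * t ^ (-s : ℝ) *
        Set.indicator {𝔞 : Ideal (𝓞 L) | 𝔞 ≠ ⊥} (fun 𝔞 => (Ideal.absNorm 𝔞 : ℝ) ^ (-s : ℝ)) 𝔞 :=
        h5.tsum_le_tsum h4 (h2.mul_left _)
    _ = C₁ * t ^ (-s : ℝ) * ∑' 𝔞 : Ideal (𝓞 L),
        Set.indicator {𝔞 : Ideal (𝓞 L) | 𝔞 ≠ ⊥} (fun 𝔞 => (Ideal.absNorm 𝔞 : ℝ) ^ (-s : ℝ)) 𝔞 := by
        rw [tsum_mul_left]
    _ ≤ C₁ * t ^ (-s : ℝ) * C₂ := mul_le_mul_of_nonneg_left h3 (by positivity)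
    _ = _ := by ring

/-- **GP-T3** -/
theorem t_T3 (hW : S_W) (hU : S_UNF) (hF : S_FEB) (hZ3 : S_ZB3) : S_T3 := by
  intro s hs
  obtain ⟨C₂, hC₂, hZ⟩ := hZ3 s hs
  obtain ⟨C₁, hC₁, hW2⟩ := hW.2.1 s (by linarith)
  refine ⟨C₁ * C₂, by positivity, ?_⟩
  intro L _ _ _ hL η hη hn X hX
  obtain ⟨c₀, hc₀, hh⟩ := hf_ind hU hL
  obtain ⟨𝔟, hr⟩ := exists_reps L
  choose 𝔟' k hk0 hb' hbk using fun c => exists_dual (hr.ne_bot c)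
  have hr' := reps_dual hr k hb' hbk
  set d : ℝ := |(discr L : ℝ)| with hd
  have hd1 : 1 ≤ d := by
    have h1 : (1 : ℤ) ≤ |discr L| := Int.one_le_abs (discr_ne_zero L)
    have h2 : ((1 : ℤ) : ℝ) ≤ ((|discr L| : ℤ) : ℝ) := by exact_mod_cast h1
    rw [hd]
    rw [Int.cast_abs] at h2
    simpa using h2
  have hd0 : 0 < d := by linarith
  set t : ℝ := X / d with ht
  have ht0 : 0 < t := by positivity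
  obtain ⟨hZs, hZt⟩ := hZ L hL
  obtain ⟨hs2, hs2'⟩ := sum_W3 hW hW2 hC₁ hZs hZt ht0
  have hη0 : η ⊥ = 0 := map_zero η
  -- the first expression
  have e1 : ∑ c, (η (𝔟 c))⁻¹ * hf (fun _ => 0) (ind (𝔟 c)) (1 / ((Ideal.absNorm (𝔟 c) : ℝ) * X)) =
      c₀ * ∑' 𝔞 : Ideal (𝓞 L), η 𝔞 * ((W ((Ideal.absNorm 𝔞 : ℝ) / X) : ℝ) : ℂ) := by
    have h1 : ∀ c, (η (𝔟 c))⁻¹ * hf (fun _ => 0) (ind (𝔟 c))
        (1 / ((Ideal.absNorm (𝔟 c) : ℝ) * X)) = (η (𝔟 c))⁻¹ + c₀ *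
          ∑' 𝔞 : Sc (𝔟 c), η 𝔞 * ((W ((Ideal.absNorm (𝔞 : Ideal (𝓞 L)) : ℝ) / X) : ℝ) : ℂ) := by
      intro c
      have hN := absNorm_pos' (hr.ne_bot c)
      rw [hh (𝔟 c) (hr.ne_bot c) _ (by positivity), mul_add, mul_one]
      congr 1
      rw [mul_left_comm, ← tsum_mul_left]
      congr 1
      refine tsum_congr fun 𝔞 => ?_
      rw [eta_Sc hη (hr.ne_bot c) 𝔞.2]
      congr 3
      field_simp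
    simp_rw [h1]
    rw [Finset.sum_add_distrib, orth hη hn hr, zero_add, ← Finset.mul_sum]
    congr 1
    refine sum_dec hr (f := fun 𝔞 => η 𝔞 * ((W ((Ideal.absNorm 𝔞 : ℝ) / X) : ℝ) : ℂ)) ?_ ?_
    · exact sum_ideal_W hW t_ZB hL (isCl_norm hη) hX
    · simp only [hη0, zero_mul]
  -- the second expression
  set B : ℂ := ∑ c, (η (𝔟 c))⁻¹ *
    ∑' 𝔞 : Sc (𝔟' c), ((W ((Ideal.absNorm (𝔞 : Ideal (𝓞 L)) : ℝ) * t) : ℝ) : ℂ) with hB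
  have e2 : ∑ c, (η (𝔟 c))⁻¹ * hf (fun _ => 0) (ind (𝔟 c)) (1 / ((Ideal.absNorm (𝔟 c) : ℝ) * X)) =
      (((Real.sqrt d)⁻¹ * X : ℝ) : ℂ) * (c₀ * B) := by
    have h1 : ∀ c, (η (𝔟 c))⁻¹ * hf (fun _ => 0) (ind (𝔟 c))
        (1 / ((Ideal.absNorm (𝔟 c) : ℝ) * X)) = (((Real.sqrt d)⁻¹ * X : ℝ) : ℂ) * (η (𝔟 c))⁻¹ +
          (((Real.sqrt d)⁻¹ * X : ℝ) : ℂ) * (c₀ * ((η (𝔟 c))⁻¹ *
          ∑' 𝔞 : Sc (𝔟' c), ((W ((Ideal.absNorm (𝔞 : Ideal (𝓞 L)) : ℝ) * t) : ℝ) : ℂ))) := by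
      intro c
      have hN' := absNorm_pos' (hb' c)
      rw [hF L (𝔟 c) (𝔟' c) (k c) (hk0 c) (hbk c) X hX, ← hd,
        hh (𝔟' c) (hb' c) _ (by positivity)]
      have h2 : ∀ 𝔞 : Ideal (𝓞 L), (Ideal.absNorm 𝔞 : ℝ) * Ideal.absNorm (𝔟' c) *
          (X / ((Ideal.absNorm (𝔟' c) : ℝ) * d)) = (Ideal.absNorm 𝔞 : ℝ) * t := by
        intro 𝔞
        rw [ht]
        field_simp
      simp_rw [h2]
      ring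
    simp_rw [h1]
    rw [Finset.sum_add_distrib, ← Finset.mul_sum, orth hη hn hr, mul_zero, zero_add,
      ← Finset.mul_sum, ← Finset.mul_sum]
  have e3 : ∑' 𝔞 : Ideal (𝓞 L), η 𝔞 * ((W ((Ideal.absNorm 𝔞 : ℝ) / X) : ℝ) : ℂ) =
      (((Real.sqrt d)⁻¹ * X : ℝ) : ℂ) * B := by
    have h1 : (c₀ : ℂ) ≠ 0 := by exact_mod_cast hc₀.ne'
    apply mul_left_cancel₀ h1
    rw [← e1, e2]
    ring
  have hBn : ‖B‖ ≤ C₁ * C₂ * t ^ (-s : ℝ) := by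
    have h1 : ∀ c, ‖(η (𝔟 c))⁻¹ *
        ∑' 𝔞 : Sc (𝔟' c), ((W ((Ideal.absNorm (𝔞 : Ideal (𝓞 L)) : ℝ) * t) : ℝ) : ℂ)‖ =
        ∑' 𝔞 : Sc (𝔟' c), ‖triv L (𝔞 : Ideal (𝓞 L))‖ *
          W ((Ideal.absNorm (𝔞 : Ideal (𝓞 L)) : ℝ) * t) := by
      intro c
      rw [norm_mul, norm_inv, norm_eta hη (hr.ne_bot c), inv_one, one_mul, ← Complex.ofReal_tsum,
        Complex.norm_real, Real.norm_of_nonneg (tsum_nonneg fun _ => hW.1 _)]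
      refine tsum_congr fun 𝔞 => ?_
      rw [triv_of_ne 𝔞.2.1, norm_one, one_mul]
    calc ‖B‖ ≤ ∑ c, ‖(η (𝔟 c))⁻¹ *
        ∑' 𝔞 : Sc (𝔟' c), ((W ((Ideal.absNorm (𝔞 : Ideal (𝓞 L)) : ℝ) * t) : ℝ) : ℂ)‖ :=
          norm_sum_le _ _
      _ = ∑ c, ∑' 𝔞 : Sc (𝔟' c), ‖triv L (𝔞 : Ideal (𝓞 L))‖ *
          W ((Ideal.absNorm (𝔞 : Ideal (𝓞 L)) : ℝ) * t) := Finset.sum_congr rfl fun c _ => h1 c
      _ = ∑' 𝔞 : Ideal (𝓞 L), ‖triv L 𝔞‖ * W ((Ideal.absNorm 𝔞 : ℝ) * t) := by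
          refine sum_dec hr' (f := fun 𝔞 => ‖triv L 𝔞‖ * W ((Ideal.absNorm 𝔞 : ℝ) * t)) hs2 ?_
          have : triv L ⊥ = 0 := map_zero _
          simp only [this, norm_zero, zero_mul]
      _ ≤ _ := hs2'
  rw [e3, norm_mul, Complex.norm_real, Real.norm_of_nonneg (by positivity)]
  have ht2 : t ^ (-s : ℝ) = d ^ s * X ^ (-s) := by
    rw [ht, div_eq_mul_inv, Real.mul_rpow hX.le (by positivity), Real.inv_rpow hd0.le,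
      ← Real.rpow_neg hd0.le, neg_neg, mul_comm]
  have hs1 : (Real.sqrt d)⁻¹ = d ^ (-(1 / 2) : ℝ) := by
    rw [Real.sqrt_eq_rpow, ← Real.rpow_neg hd0.le]
  have hd3 : d ^ (-(1 / 2) : ℝ) * d ^ s = d ^ (s - 1 / 2) := by
    rw [← Real.rpow_add hd0]
    congr 1
    ring
  have hX3 : X * X ^ (-s) = X ^ (1 - s) := by
    nth_rewrite 1 [← Real.rpow_one X]
    rw [← Real.rpow_add hX]
    congr 1
  calc (Real.sqrt d)⁻¹ * X * ‖B‖ ≤ (Real.sqrt d)⁻¹ * X * (C₁ * C₂ * t ^ (-s : ℝ)) :=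
        mul_le_mul_of_nonneg_left hBn (by positivity)
    _ = C₁ * C₂ * (d ^ (-(1 / 2) : ℝ) * d ^ s) * (X * X ^ (-s)) := by
        rw [ht2, hs1]
        ring
    _ = C₁ * C₂ * d ^ (s - 1 / 2) * X ^ (1 - s) := by
        rw [hd3, hX3]

end Pool.Agent.J4H57.GP
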